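import Mathlib

/-!
# Denominators of sums
-/

set_option autoImplicit false

namespace Pool.Agent.U84.DD

open Finset

/-- the bound for the denominators of the elements of `D` -/
def DenLe (A δ : ℝ) (D : Set ℚ) : Prop :=
  ∀ x ∈ D, Real.log x.den ≤ A * (1 + Real.log (max 1 |(x : ℝ)|)) ^ δ

theorem den_sum (s : Finset ℕ) (f : ℕ → ℚ) : (∑ i ∈ s, f i).den ∣ ∏ i ∈ s, (f i).den := by
  classical
  induction s using Finset.induction_on with
  | empty => simp
  | insert a s ha ih =>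
    rw [sum_insert ha, prod_insert ha]
    exact (Rat.add_den_dvd _ _).trans (mul_dvd_mul_left _ ih)

theorem neg_den (q : ℚ) : (-q).den = q.den := rfl

theorem den_quot {K g : ℕ} (hg : 1 ≤ g) {x : ℚ} {u : ℕ → ℚ}
    (h : (g : ℚ) * x = ∑ i ∈ range K, (u (2 * i) - u (2 * i + 1))) :
    x.den ≤ g * ∏ i ∈ range (2 * K), (u i).den := by
  have h1 : ∑ i ∈ range K, (u (2 * i) - u (2 * i + 1)) =
      ∑ i ∈ range (2 * K), (-1 : ℚ) ^ i * u i := by
    clear h
    induction K with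
    | zero => simp
    | succ K ih =>
      rw [sum_range_succ, ih, show 2 * (K + 1) = 2 * K + 1 + 1 by ring, sum_range_succ,
        sum_range_succ]
      have e1 : (-1 : ℚ) ^ (2 * K) = 1 := by rw [pow_mul]; norm_num
      have e2 : (-1 : ℚ) ^ (2 * K + 1) = -1 := by rw [pow_succ, e1]; norm_num
      rw [e1, e2]
      ring
  rw [h1] at h
  have h2 := den_sum (range (2 * K)) (fun i => (-1 : ℚ) ^ i * u i)
  have h3 : ∏ i ∈ range (2 * K), ((-1 : ℚ) ^ i * u i).den = ∏ i ∈ range (2 * K), (u i).den := by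
    refine prod_congr rfl fun i _ => ?_
    rcases neg_one_pow_eq_or ℚ i with h | h
    · rw [h, one_mul]
    · rw [h, neg_one_mul, neg_den]
  rw [h3, ← h] at h2
  have hg0 : (g : ℚ) ≠ 0 := by exact_mod_cast (by omega : g ≠ 0)
  have h4 : x = (g : ℚ)⁻¹ * ((g : ℚ) * x) := by field_simp
  have h5 : x.den ∣ (g : ℚ)⁻¹.den * ((g : ℚ) * x).den := by
    conv_lhs => rw [h4]
    exact Rat.mul_den_dvd _ _
  have h6 : (g : ℚ)⁻¹.den = g := by
    rw [Rat.inv_natCast_den_of_pos (by omega)]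
  rw [h6] at h5
  have hpos : 0 < ∏ i ∈ range (2 * K), (u i).den := prod_pos fun i _ => (u i).den_pos
  exact Nat.le_of_dvd (Nat.mul_pos (by omega) hpos) (h5.trans (mul_dvd_mul_left _ h2))

theorem one_le_L (x : ℝ) : 1 ≤ 1 + Real.log (max 1 |x|) := by
  have := Real.log_nonneg (le_max_left (1 : ℝ) |x|)
  linarith

/-- the sizes of the summands -/
theorem size_u {C κ : ℕ} {x y : ℝ} (h : y ^ 2 ≤ C * (1 + x ^ 2) ^ κ) :
    1 + Real.log (max 1 |y|) ≤
      (2 + C + 2 * κ) * (1 + Real.log (max 1 |x|)) := by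
  have hL := one_le_L x
  set m := max 1 |x| with hm
  have hm1 : 1 ≤ m := le_max_left _ _
  have hm0 : 0 ≤ Real.log m := Real.log_nonneg hm1
  have hx : 1 + x ^ 2 ≤ 2 * m ^ 2 := by
    have h1 : |x| ≤ m := le_max_right _ _
    have h2 : x ^ 2 = |x| ^ 2 := (sq_abs x).symm
    have h3 := abs_nonneg x
    nlinarith
  have h1 : (max 1 |y|) ^ 2 ≤ (1 + C) * (2 * m ^ 2) ^ κ := by
    have a1 : (1 : ℝ) ≤ (2 * m ^ 2) ^ κ := one_le_pow₀ (by nlinarith)
    have a2 : (C : ℝ) * (1 + x ^ 2) ^ κ ≤ C * (2 * m ^ 2) ^ κ := by gcongr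
    rcases max_choice 1 |y| with h2 | h2
    · rw [h2]
      have : (0 : ℝ) ≤ C * (2 * m ^ 2) ^ κ := by positivity
      nlinarith
    · rw [h2, sq_abs]
      nlinarith
  have h2 : 2 * Real.log (max 1 |y|) ≤ Real.log (1 + C) + κ * (Real.log 2 + 2 * Real.log m) := by
    have b1 : 0 < max 1 |y| := lt_of_lt_of_le one_pos (le_max_left _ _)
    have b2 : Real.log ((max 1 |y|) ^ 2) ≤ Real.log ((1 + C) * (2 * m ^ 2) ^ κ) :=
      Real.log_le_log (by positivity) h1
    rw [Real.log_pow, Real.log_mul (by positivity) (by positivity), Real.log_pow,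
      Real.log_mul (by norm_num) (by positivity), Real.log_pow] at b2
    exact_mod_cast b2
  have h3 : Real.log (1 + C) ≤ C := by
    have := Real.log_le_sub_one_of_pos (show (0 : ℝ) < 1 + C by positivity)
    linarith
  have h4 : Real.log 2 ≤ 1 := by
    have := Real.log_le_sub_one_of_pos (show (0 : ℝ) < 2 by norm_num)
    linarith
  have hC : (0 : ℝ) ≤ C := Nat.cast_nonneg C
  have hκ : (0 : ℝ) ≤ κ := Nat.cast_nonneg κ
  nlinarith [mul_nonneg hC hm0, mul_nonneg hκ hm0]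

/-- the bound for the denominator of a quotient of a sum -/
theorem den_bound (K g C κ : ℕ) (hg : 1 ≤ g) (A δ : ℝ) :
    ∃ A' : ℝ, ∀ (x : ℚ) (u : ℕ → ℚ),
      (∀ i < 2 * K, Real.log (u i).den ≤ A * (1 + Real.log (max 1 |(u i : ℝ)|)) ^ δ ∧
        (u i) ^ 2 ≤ C * (1 + x ^ 2) ^ κ) →
      (g : ℚ) * x = ∑ i ∈ range K, (u (2 * i) - u (2 * i + 1)) →
      Real.log x.den ≤ A' * (1 + Real.log (max 1 |(x : ℝ)|)) ^ (max δ 0) := by
  set δ' := max δ 0 with hδ'
  have hδ0 : 0 ≤ δ' := le_max_right _ _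
  set c : ℝ := 2 + C + 2 * κ with hc
  have hc0 : 0 < c := by positivity
  refine ⟨Real.log g + 2 * K * (|A| * c ^ δ'), fun x u h hx => ?_⟩
  set L := 1 + Real.log (max 1 |(x : ℝ)|) with hL
  have hL1 : 1 ≤ L := one_le_L _
  have hLδ : 1 ≤ L ^ δ' := Real.one_le_rpow hL1 hδ0
  have h1 : ∀ i ∈ range (2 * K), Real.log (u i).den ≤ |A| * c ^ δ' * L ^ δ' := by
    intro i hi
    rw [Finset.mem_range] at hi
    obtain ⟨h2, h3⟩ := h i hi
    have h3' : (u i : ℝ) ^ 2 ≤ C * (1 + (x : ℝ) ^ 2) ^ κ := by exact_mod_cast h3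
    have h4 := size_u h3'
    set Li := 1 + Real.log (max 1 |(u i : ℝ)|) with hLi
    have hLi1 : 1 ≤ Li := one_le_L _
    calc Real.log (u i).den ≤ A * Li ^ δ := h2
      _ ≤ |A| * Li ^ δ := mul_le_mul_of_nonneg_right (le_abs_self A)
          (Real.rpow_nonneg (by linarith) _)
      _ ≤ |A| * Li ^ δ' := mul_le_mul_of_nonneg_left
          (Real.rpow_le_rpow_of_exponent_le hLi1 (le_max_left _ _)) (abs_nonneg A)
      _ ≤ |A| * (c * L) ^ δ' := mul_le_mul_of_nonneg_left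
          (Real.rpow_le_rpow (by linarith) h4 hδ0) (abs_nonneg A)
      _ = |A| * c ^ δ' * L ^ δ' := by
          rw [Real.mul_rpow hc0.le (by linarith)]
          ring
  have h2 := den_quot hg hx
  have hpos : 0 < ∏ i ∈ range (2 * K), (u i).den := prod_pos fun i _ => (u i).den_pos
  have h3 : Real.log x.den ≤ Real.log g + ∑ i ∈ range (2 * K), Real.log (u i).den := by
    have a1 : (x.den : ℝ) ≤ g * ∏ i ∈ range (2 * K), ((u i).den : ℝ) := by exact_mod_cast h2
    have a2 := Real.log_le_log (by exact_mod_cast x.den_pos) a1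
    rw [Real.log_mul (by exact_mod_cast (by omega : g ≠ 0))
      (prod_ne_zero_iff.2 fun i _ => by exact_mod_cast (u i).den_ne_zero),
      Real.log_prod (fun i _ => by exact_mod_cast (u i).den_ne_zero)] at a2
    exact a2
  have h4 : ∑ i ∈ range (2 * K), Real.log (u i).den ≤ (2 * K : ℕ) * (|A| * c ^ δ' * L ^ δ') := by
    have := sum_le_sum h1
    rwa [sum_const, card_range, nsmul_eq_mul] at this
  have h5 : Real.log g ≤ Real.log g * L ^ δ' :=
    le_mul_of_one_le_right (Real.log_nonneg (by exact_mod_cast hg)) hLδ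
  push_cast at h4
  nlinarith

end Pool.Agent.U84.DD
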