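import Mathlib

/-!
# Sums of differences of the values of a polynomial on a dense set
-/

set_option autoImplicit false

namespace Pool.Agent.U84.DD

open Finset Polynomial

/-- `z` is the sum of `K` differences of elements of `S`. -/
def SD (K : ℕ) (S : Set ℚ) (z : ℚ) : Prop :=
  ∃ a b : Fin K → ℚ, (∀ i, a i ∈ S ∧ b i ∈ S) ∧ z = ∑ i, (a i - b i)

theorem SD.mono {K : ℕ} {S S' : Set ℚ} (h : S ⊆ S') {z : ℚ} (hz : SD K S z) : SD K S' z := by
  obtain ⟨a, b, hab, h1⟩ := hz
  exact ⟨a, b, fun i => ⟨h (hab i).1, h (hab i).2⟩, h1⟩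

theorem SD.add {K L : ℕ} {S : Set ℚ} {z w : ℚ} (hz : SD K S z) (hw : SD L S w) :
    SD (K + L) S (z + w) := by
  obtain ⟨a, b, hab, rfl⟩ := hz
  obtain ⟨a', b', hab', rfl⟩ := hw
  refine ⟨Fin.append a a', Fin.append b b', fun i => ?_, ?_⟩
  · refine Fin.addCases (fun i => ?_) (fun i => ?_) i
    · rw [Fin.append_left, Fin.append_left]; exact hab i
    · rw [Fin.append_right, Fin.append_right]; exact hab' i
  · rw [Fin.sum_univ_add]
    simp only [Fin.append_left, Fin.append_right]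

theorem SD.neg {K : ℕ} {S : Set ℚ} {z : ℚ} (hz : SD K S z) : SD K S (-z) := by
  obtain ⟨a, b, hab, rfl⟩ := hz
  refine ⟨b, a, fun i => ⟨(hab i).2, (hab i).1⟩, ?_⟩
  rw [← Finset.sum_neg_distrib]
  exact Finset.sum_congr rfl fun i _ => by ring

theorem SD.zero {S : Set ℚ} (K : ℕ) (hS : S.Nonempty) : SD K S 0 := by
  obtain ⟨s, hs⟩ := hS
  exact ⟨fun _ => s, fun _ => s, fun _ => ⟨hs, hs⟩, by simp⟩

theorem SD.le {K L : ℕ} (hKL : K ≤ L) {S : Set ℚ} (hS : S.Nonempty) {z : ℚ} (hz : SD K S z) :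
    SD L S z := by
  obtain ⟨m, rfl⟩ := Nat.exists_eq_add_of_le hKL
  have := hz.add (SD.zero m hS)
  rwa [add_zero] at this

theorem SD.nsmul {K : ℕ} {S : Set ℚ} {z : ℚ} (hz : SD K S z) (m : ℕ) :
    SD (m * K) S (m * z) := by
  induction m with
  | zero => exact ⟨fun i => absurd i.2 (by simp), fun i => absurd i.2 (by simp),
      fun i => absurd i.2 (by simp), by simp⟩
  | succ m ih =>
    have := ih.add hz
    have e : (m : ℚ) * z + z = ((m + 1 : ℕ) : ℚ) * z := by push_cast; ring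
    rw [e] at this
    rwa [show (m + 1) * K = m * K + K by ring]

/-- sums of sums -/
theorem SD.bind {K L : ℕ} {S S' : Set ℚ} (h : ∀ a ∈ S, ∀ b ∈ S, SD L S' (a - b)) {z : ℚ}
    (hz : SD K S z) : SD (K * L) S' z := by
  obtain ⟨a, b, hab, rfl⟩ := hz
  induction K with
  | zero => exact ⟨fun i => absurd i.2 (by simp), fun i => absurd i.2 (by simp),
      fun i => absurd i.2 (by simp), by simp⟩
  | succ K ih =>
    rw [Fin.sum_univ_castSucc]
    have h1 := ih (fun i => a i.castSucc) (fun i => b i.castSucc) fun i => hab _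
    have h2 := h _ (hab (Fin.last K)).1 _ (hab (Fin.last K)).2
    have := h1.add h2
    rwa [show (K + 1) * L = K * L + L by ring]

/-- two elements of a dense set whose difference is a small multiple of `u` -/
theorem base {x : ℤ} {N R u : ℕ} {A : Finset ℤ} (hA : A ⊆ Ioc x (x + N)) (hu : R * u ≤ N)
    (hc : 2 * N < (R + 1) * A.card) :
    ∃ m : ℕ, 1 ≤ m ∧ m ≤ R ∧ ∃ a ∈ A, ∃ b ∈ A, a - b = (m : ℤ) * u := by
  classical
  have hmap : ∀ p ∈ (range (R + 1)) ×ˢ A, p.2 + (p.1 : ℤ) * u ∈ Ioc x (x + 2 * N) := by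
    rintro ⟨i, a⟩ hp
    rw [mem_product, Finset.mem_range] at hp
    have h1 := mem_Ioc.1 (hA hp.2)
    have h2 : (i : ℤ) * u ≤ N := by
      have : i * u ≤ N := (Nat.mul_le_mul_right u (by omega : i ≤ R)).trans hu
      exact_mod_cast this
    have h3 : (0 : ℤ) ≤ (i : ℤ) * u := by positivity
    rw [mem_Ioc]
    constructor
    · exact lt_of_lt_of_le h1.1 (by simpa using h3)
    · have := h1.2
      simp only
      linarith
  have hcard : (Ioc x (x + 2 * N)).card < ((range (R + 1)) ×ˢ A).card := by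
    rw [card_product, card_range, Int.card_Ioc]
    have : (x + 2 * (N : ℤ) - x).toNat = 2 * N := by
      have : x + 2 * (N : ℤ) - x = ((2 * N : ℕ) : ℤ) := by push_cast; ring
      rw [this, Int.toNat_natCast]
    rw [this]
    exact hc
  obtain ⟨⟨i, a⟩, hp, ⟨j, b⟩, hq, hne, heq⟩ := exists_ne_map_eq_of_card_lt_of_maps_to hcard hmap
  rw [mem_product, Finset.mem_range] at hp hq
  simp only at hp hq heq
  rcases lt_trichotomy i j with h | h | h
  · refine ⟨j - i, by omega, by omega, a, hp.2, b, hq.2, ?_⟩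
    rw [Nat.cast_sub h.le]
    linarith
  · subst h
    exact absurd (by rw [add_right_cancel heq]) hne
  · refine ⟨i - j, by omega, by omega, b, hq.2, a, hp.2, ?_⟩
    rw [Nat.cast_sub h.le]
    linarith

/-- the values of a function on a finite set -/
def Im (f : ℤ → ℚ) (B : Finset ℤ) : Set ℚ := {z | ∃ n ∈ B, z = f n}

theorem Im.mem {f : ℤ → ℚ} {B : Finset ℤ} {n : ℤ} (h : n ∈ B) : f n ∈ Im f B := ⟨n, h, rfl⟩

/-- the functions like polynomials of degree at most `k + 1` with coefficient `c` at the power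
`k + 1` -/
def PolF : ℕ → ℚ → (ℤ → ℚ) → Prop
  | 0, c, f => ∀ a b : ℤ, f a - f b = c * (a - b)
  | k + 1, c, f => ∀ h : ℕ, PolF k ((k + 2) * h * c) (fun n => f (n + h) - f n)

theorem card_le_offDiag (S : Finset ℕ) : S.card ≤ 1 + S.offDiag.card := by
  rw [offDiag_card]
  rcases Nat.eq_zero_or_pos S.card with h | h
  · omega
  · obtain ⟨m, hm⟩ := Nat.exists_eq_add_of_lt h
    rw [hm]
    have : (0 + m + 1) * (0 + m + 1) - (0 + m + 1) = (m + 1) * m := by
      have : (0 + m + 1) * (0 + m + 1) = (m + 1) * m + (0 + m + 1) := by ring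
      omega
    rw [this]
    nlinarith

/-- a dense set meets a small translate in a dense set -/
theorem translate {x : ℤ} {N R : ℕ} (h8 : 0 < N) (hN : R ≤ N) {B : Finset ℤ} (hB : B ⊆ Ioc x (x + N))
    (hc : 3 * N ≤ (R + 1) * B.card) :
    ∃ h : ℕ, 1 ≤ h ∧ h ≤ R ∧ N ≤ (R + 1) ^ 2 * (B.filter fun n => n + (h : ℤ) ∈ B).card := by
  classical
  by_contra hcon
  push Not at hcon
  set Y := Ioc x (x + 2 * N) with hY
  have hYc : Y.card = 2 * N := by
    rw [hY, Int.card_Ioc]
    have : x + 2 * (N : ℤ) - x = ((2 * N : ℕ) : ℤ) := by push_cast; ring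
    rw [this, Int.toNat_natCast]
  set S : ℤ → Finset ℕ := fun y => (range (R + 1)).filter fun i => y - (i : ℤ) ∈ B with hS
  -- the sum of the cardinalities
  have h1 : (R + 1) * B.card ≤ ∑ y ∈ Y, (S y).card := by
    have h2 : ∑ y ∈ Y, (S y).card = ∑ i ∈ range (R + 1), (Y.filter fun y => y - (i : ℤ) ∈ B).card := by
      simp only [hS, card_eq_sum_ones, sum_filter]
      rw [sum_comm]
    rw [h2]
    have h3 : ∀ i ∈ range (R + 1), B.card ≤ (Y.filter fun y => y - (i : ℤ) ∈ B).card := by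
      intro i hi
      rw [Finset.mem_range] at hi
      apply card_le_card_of_injOn (fun b => b + (i : ℤ))
      · intro b hb
        have hb' : b ∈ B := hb
        have h4 := mem_Ioc.1 (hB hb')
        have h5 : (i : ℤ) ≤ N := by exact_mod_cast (by omega : i ≤ N)
        have h6 : (0 : ℤ) ≤ i := by positivity
        simp only [hY, coe_filter, Set.mem_ofPred_eq, mem_Ioc, add_sub_cancel_right]
        exact ⟨⟨by linarith [h4.1], by linarith [h4.2]⟩, hb'⟩
      · intro a _ b _ hab
        exact add_right_cancel hab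
    calc (R + 1) * B.card = ∑ i ∈ range (R + 1), B.card := by
          rw [sum_const, card_range, smul_eq_mul]
      _ ≤ _ := sum_le_sum h3
  have h2 : ∑ y ∈ Y, (S y).card ≤ 2 * N + ∑ y ∈ Y, (S y).offDiag.card := by
    calc ∑ y ∈ Y, (S y).card ≤ ∑ y ∈ Y, (1 + (S y).offDiag.card) :=
          sum_le_sum fun y _ => card_le_offDiag _
      _ = 2 * N + ∑ y ∈ Y, (S y).offDiag.card := by
          rw [sum_add_distrib, sum_const, smul_eq_mul, mul_one, hYc]
  -- the pairs
  have h3 : ∑ y ∈ Y, (S y).offDiag.card =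
      ∑ p ∈ (range (R + 1)).offDiag,
        (Y.filter fun y => y - (p.1 : ℤ) ∈ B ∧ y - (p.2 : ℤ) ∈ B).card := by
    have h4 : ∀ y, (S y).offDiag = (range (R + 1)).offDiag.filter
        fun p => y - (p.1 : ℤ) ∈ B ∧ y - (p.2 : ℤ) ∈ B := by
      intro y
      ext ⟨i, j⟩
      simp only [hS, mem_offDiag, mem_filter]
      tauto
    simp only [h4, card_eq_sum_ones, sum_filter]
    rw [sum_comm]
  have key : ∀ i j : ℕ, j < i → i ≤ R →
      (Y.filter fun y => y - (i : ℤ) ∈ B ∧ y - (j : ℤ) ∈ B).card ≤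
        (B.filter fun n => n + ((i - j : ℕ) : ℤ) ∈ B).card := by
    intro i j hij hi
    apply card_le_card_of_injOn (fun y => y - (i : ℤ))
    · intro y hy
      simp only [coe_filter, Set.mem_ofPred_eq] at hy ⊢
      refine ⟨hy.2.1, ?_⟩
      have : y - (i : ℤ) + ((i - j : ℕ) : ℤ) = y - (j : ℤ) := by
        rw [Nat.cast_sub hij.le]; ring
      rw [this]
      exact hy.2.2
    · intro a _ b _ hab
      exact sub_left_injective hab
  have h5 : ∀ p ∈ (range (R + 1)).offDiag,
      (R + 1) ^ 2 * (Y.filter fun y => y - (p.1 : ℤ) ∈ B ∧ y - (p.2 : ℤ) ∈ B).card < N := by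
    rintro ⟨i, j⟩ hp
    rw [mem_offDiag, Finset.mem_range, Finset.mem_range] at hp
    obtain ⟨hi, hj, hij⟩ := hp
    simp only at hi hj hij ⊢
    rcases lt_or_gt_of_ne hij with h | h
    · have e : (Y.filter fun y => y - (i : ℤ) ∈ B ∧ y - (j : ℤ) ∈ B) =
          (Y.filter fun y => y - (j : ℤ) ∈ B ∧ y - (i : ℤ) ∈ B) := by
        apply filter_congr
        intro y _
        tauto
      rw [e]
      refine lt_of_le_of_lt (Nat.mul_le_mul_left _ (key j i h (by omega))) ?_
      exact hcon (j - i) (by omega) (by omega)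
    · refine lt_of_le_of_lt (Nat.mul_le_mul_left _ (key i j h (by omega))) ?_
      exact hcon (i - j) (by omega) (by omega)
  have h6 : (R + 1) ^ 2 * ∑ p ∈ (range (R + 1)).offDiag,
      (Y.filter fun y => y - (p.1 : ℤ) ∈ B ∧ y - (p.2 : ℤ) ∈ B).card ≤
      (range (R + 1)).offDiag.card * N := by
    rw [mul_sum, ← smul_eq_mul (a := (range (R + 1)).offDiag.card), ← sum_const]
    exact sum_le_sum fun p hp => (h5 p hp).le
  have h7 : (range (R + 1)).offDiag.card ≤ (R + 1) ^ 2 - 1 := by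
    rw [offDiag_card, card_range]
    have : (R + 1) * (R + 1) = (R + 1) ^ 2 := by ring
    omega
  have h9 : (R + 1) ^ 2 * N ≤ ((R + 1) ^ 2 - 1) * N := by
    calc (R + 1) ^ 2 * N ≤ (R + 1) ^ 2 * ∑ y ∈ Y, (S y).offDiag.card := by
          apply Nat.mul_le_mul_left
          omega
      _ ≤ (range (R + 1)).offDiag.card * N := by rw [h3]; exact h6
      _ ≤ _ := Nat.mul_le_mul_right _ h7
  have h10 : 1 ≤ (R + 1) ^ 2 := Nat.one_le_pow _ _ (by omega)
  have h11 := Nat.le_of_mul_le_mul_right h9 h8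
  omega

/-- MAIN LEMMA: `M c u` is a sum of `K` differences of values of `f`, a polynomial function of degree
`k + 1` with leading coefficient `c`, at points of a set of density at least `δ` in an interval. -/
theorem pol_diff (k : ℕ) : ∀ δ : ℝ, 0 < δ → ∃ K M : ℕ, 1 ≤ M ∧ ∀ (c : ℚ) (f : ℤ → ℚ), PolF k c f →
    ∀ (x : ℤ) (N : ℕ) (B : Finset ℤ), 1 ≤ N → B ⊆ Ioc x (x + N) → δ * N ≤ B.card →
    ∀ u : ℕ, M * u ≤ N → SD K (Im f B) (M * c * u) := by
  induction k with
  | zero =>
    intro δ hδ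
    obtain ⟨R, hR⟩ := exists_nat_gt (2 / δ)
    refine ⟨R.factorial, R.factorial, Nat.factorial_pos R, ?_⟩
    intro c f hf x N B hN hB hd u hu
    have hRu : R * u ≤ N := (Nat.mul_le_mul_right u (Nat.self_le_factorial R)).trans hu
    have hc : 2 * N < (R + 1) * B.card := by
      have hN0 : (0 : ℝ) < N := by exact_mod_cast hN
      have h1 : 2 < (R : ℝ) * δ := by
        rw [div_lt_iff₀ hδ] at hR
        exact hR
      have h2 : (2 : ℝ) * N < ((R : ℝ) + 1) * B.card := by
        calc (2 : ℝ) * N < (R * δ) * N := by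
              exact mul_lt_mul_of_pos_right h1 hN0
          _ ≤ (R + 1) * (δ * N) := by nlinarith [mul_pos hδ hN0]
          _ ≤ (R + 1) * B.card := by
              apply mul_le_mul_of_nonneg_left hd
              positivity
      exact_mod_cast h2
    obtain ⟨m, hm1, hmR, a, ha, b, hb, hab⟩ := base hB hRu hc
    obtain ⟨t, ht⟩ : m ∣ R.factorial := Nat.dvd_factorial hm1 hmR
    have h1 : SD 1 (Im f B) (c * (m * u)) := by
      refine ⟨fun _ => f a, fun _ => f b, fun _ => ⟨Im.mem ha, Im.mem hb⟩, ?_⟩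
      rw [Fin.sum_univ_one, hf a b]
      have : ((a : ℚ) - b) = m * u := by exact_mod_cast hab
      rw [this]
    have h2 := h1.nsmul t
    have h3 : t * 1 ≤ R.factorial := by
      rw [mul_one, ht]
      exact Nat.le_mul_of_pos_left t hm1
    have h4 := h2.le h3 ⟨f a, Im.mem ha⟩
    have e : ((R.factorial : ℕ) : ℚ) * c * u = t * (c * (m * u)) := by
      rw [ht]; push_cast; ring
    rw [e]
    exact h4
  | succ k ih =>
    intro δ hδ
    obtain ⟨R, hR⟩ := exists_nat_gt (3 / δ)
    obtain ⟨K, M, hM, h⟩ := ih (1 / ((R : ℝ) + 1) ^ 2) (by positivity)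
    refine ⟨K * 2, M * (k + 2) * R.factorial, ?_, ?_⟩
    · exact Nat.mul_pos (Nat.mul_pos hM (by omega)) (Nat.factorial_pos R)
    intro c f hf x N B hN hB hd u hu
    have hN0 : (0 : ℝ) < N := by exact_mod_cast hN
    have hBne : B.Nonempty := by
      rw [← card_pos]
      have : (0 : ℝ) < B.card := lt_of_lt_of_le (mul_pos hδ hN0) hd
      exact_mod_cast this
    obtain ⟨b0, hb0⟩ := hBne
    rcases Nat.eq_zero_or_pos u with hu0 | hu0
    · subst hu0
      have : ((M * (k + 2) * R.factorial : ℕ) : ℚ) * c * ((0 : ℕ) : ℚ) = 0 := by simp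
      rw [this]
      exact SD.zero _ ⟨f b0, Im.mem hb0⟩
    have hRN : R ≤ N := by
      calc R ≤ R.factorial := Nat.self_le_factorial R
        _ ≤ M * (k + 2) * R.factorial := Nat.le_mul_of_pos_left _ (Nat.mul_pos hM (by omega))
        _ ≤ M * (k + 2) * R.factorial * u := Nat.le_mul_of_pos_right _ hu0
        _ ≤ N := hu
    have hc : 3 * N ≤ (R + 1) * B.card := by
      have h1 : 3 ≤ (R : ℝ) * δ := by
        rw [div_lt_iff₀ hδ] at hR
        exact hR.le
      have h2 : (3 : ℝ) * N ≤ ((R : ℝ) + 1) * B.card := by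
        calc (3 : ℝ) * N ≤ (R * δ) * N := mul_le_mul_of_nonneg_right h1 hN0.le
          _ ≤ (R + 1) * (δ * N) := by nlinarith [mul_pos hδ hN0]
          _ ≤ (R + 1) * B.card := by
              apply mul_le_mul_of_nonneg_left hd
              positivity
      exact_mod_cast h2
    obtain ⟨g, hg1, hgR, hgc⟩ := translate (by omega) hRN hB hc
    obtain ⟨t, ht⟩ : g ∣ R.factorial := Nat.dvd_factorial hg1 hgR
    set B' := B.filter fun n => n + (g : ℤ) ∈ B with hB'
    have hd' : 1 / ((R : ℝ) + 1) ^ 2 * N ≤ B'.card := by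
      rw [div_mul_eq_mul_div, one_mul, div_le_iff₀ (by positivity)]
      have : (N : ℝ) ≤ ((R : ℝ) + 1) ^ 2 * B'.card := by exact_mod_cast hgc
      linarith
    have hu' : M * (t * u) ≤ N := by
      refine le_trans ?_ hu
      have h1 : t ≤ R.factorial := by rw [ht]; exact Nat.le_mul_of_pos_left t hg1
      calc M * (t * u) ≤ M * (R.factorial * u) :=
            Nat.mul_le_mul_left _ (Nat.mul_le_mul_right _ h1)
        _ ≤ (k + 2) * (M * (R.factorial * u)) := Nat.le_mul_of_pos_left _ (by omega)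
        _ = M * (k + 2) * R.factorial * u := by ring
    have h1 := h _ _ (hf g) x N B' hN ((filter_subset _ _).trans hB) hd' (t * u) hu'
    have h2 : SD (K * 2) (Im f B) ((M : ℚ) * ((k + 2) * g * c) * ((t * u : ℕ) : ℚ)) := by
      refine SD.bind ?_ h1
      rintro _ ⟨n, hn, rfl⟩ _ ⟨m, hm, rfl⟩
      rw [hB', mem_filter] at hn hm
      refine ⟨![f (n + g), f m], ![f (m + g), f n], ?_, ?_⟩
      · intro i
        fin_cases i
        · exact ⟨Im.mem hn.2, Im.mem hm.2⟩
        · exact ⟨Im.mem hm.1, Im.mem hn.1⟩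
      · rw [Fin.sum_univ_two]
        simp only [Matrix.cons_val_zero, Matrix.cons_val_one, Matrix.cons_val_fin_one]
        ring
    have e : ((M * (k + 2) * R.factorial : ℕ) : ℚ) * c * u =
        (M : ℚ) * ((k + 2) * g * c) * ((t * u : ℕ) : ℚ) := by
      rw [ht]; push_cast; ring
    rw [e]
    exact h2

end Pool.Agent.U84.DD
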