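import Pool.Agent.U84.DD.Diff

/-!
# Polynomials, sums of differences, all multiples of one integer
-/

set_option autoImplicit false

namespace Pool.Agent.U84.DD

open Finset Polynomial

theorem comp_coeff (P : ℚ[X]) (k : ℕ) (h : P.natDegree ≤ k + 2) (t : ℚ) (m : ℕ) :
    (P.comp (X + C t)).coeff m =
      ∑ i ∈ range (k + 3), P.coeff i * (t ^ (i - m) * (i.choose m : ℚ)) := by
  rw [Polynomial.comp_eq_sum_left, Polynomial.sum_over_range' P (by simp) (k + 3) (by omega),
    Polynomial.finsetSum_coeff]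
  refine sum_congr rfl fun i _ => ?_
  rw [Polynomial.coeff_C_mul, Polynomial.coeff_X_add_C_pow]

theorem polF (k : ℕ) : ∀ P : ℚ[X], P.natDegree ≤ k + 1 →
    PolF k (P.coeff (k + 1)) (fun n : ℤ => P.eval (n : ℚ)) := by
  induction k with
  | zero =>
    intro P hP a b
    rw [Polynomial.eq_X_add_C_of_natDegree_le_one hP]
    simp only [eval_add, eval_mul, eval_C, eval_X, coeff_add, coeff_C_mul, coeff_X_one,
      mul_one, zero_add, coeff_C_succ, add_zero]
    ring
  | succ k ih =>
    intro P hP h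
    set Q : ℚ[X] := P.comp (X + C (h : ℚ)) - P with hQ
    have hcoeff : Q.coeff (k + 1) = (k + 2) * h * P.coeff (k + 2) := by
      rw [hQ, coeff_sub, comp_coeff P k hP, sum_range_succ, sum_range_succ]
      have h1 : ∑ i ∈ range (k + 1), P.coeff i * ((h : ℚ) ^ (i - (k + 1)) *
          (i.choose (k + 1) : ℚ)) = 0 := by
        apply sum_eq_zero
        intro i hi
        rw [Finset.mem_range] at hi
        rw [Nat.choose_eq_zero_of_lt hi]
        simp
      rw [h1]
      have h2 : ((k + 2).choose (k + 1) : ℚ) = k + 2 := by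
        have : (k + 2).choose (k + 1) = k + 2 := by
          rw [show k + 2 = (k + 1) + 1 by ring]
          exact Nat.choose_succ_self_right (k + 1)
        rw [this]
        push_cast
        ring
      have h3 : k + 2 - (k + 1) = 1 := by omega
      rw [h2, h3, Nat.choose_self, Nat.sub_self]
      push_cast
      ring
    have hdeg : Q.natDegree ≤ k + 1 := by
      rw [Polynomial.natDegree_le_iff_coeff_eq_zero]
      intro m hm
      rw [hQ, coeff_sub, comp_coeff P k hP, sum_range_succ]
      have h1 : ∑ i ∈ range (k + 2), P.coeff i * ((h : ℚ) ^ (i - m) * (i.choose m : ℚ)) = 0 := by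
        apply sum_eq_zero
        intro i hi
        rw [Finset.mem_range] at hi
        rw [Nat.choose_eq_zero_of_lt (by omega)]
        simp
      rw [h1]
      rcases Nat.eq_or_lt_of_le (by omega : k + 2 ≤ m) with h2 | h2
      · rw [← h2, Nat.choose_self, Nat.sub_self]
        push_cast
        ring
      · have h3 : P.coeff m = 0 := Polynomial.coeff_eq_zero_of_natDegree_lt (by omega)
        rw [Nat.choose_eq_zero_of_lt h2, h3]
        simp
    have h1 := ih Q hdeg
    rw [hcoeff] at h1
    have e : (fun n : ℤ => Q.eval (n : ℚ)) =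
        fun n : ℤ => (fun m : ℤ => P.eval (m : ℚ)) (n + h) - (fun m : ℤ => P.eval (m : ℚ)) n := by
      funext n
      simp only [hQ, eval_sub, eval_comp, eval_add, eval_X, eval_C]
      push_cast
      rfl
    rw [e] at h1
    exact h1

/-- the multiples of `g`, with a bound for the interval -/
theorem multiples {P : ℚ[X]} (hP : 0 < P.natDegree) {δ : ℝ} (hδ : 0 < δ) :
    ∃ K g q : ℕ, 1 ≤ g ∧ 1 ≤ q ∧ ∀ (x : ℤ) (N : ℕ) (B : Finset ℤ), 1 ≤ N → B ⊆ Ioc x (x + N) →
      δ * N ≤ B.card → ∀ u : ℤ, q * u.natAbs ≤ N →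
      SD K (Im (fun n : ℤ => P.eval (n : ℚ)) B) (g * u) := by
  obtain ⟨k, hk⟩ : ∃ k, P.natDegree = k + 1 := ⟨P.natDegree - 1, by omega⟩
  obtain ⟨K, M, hM, h⟩ := pol_diff k δ hδ
  set c : ℚ := P.coeff (k + 1) with hc
  have hc0 : c ≠ 0 := by
    rw [hc, ← hk]
    exact Polynomial.leadingCoeff_ne_zero.2 fun h0 => by rw [h0] at hP; simp at hP
  have hcn : c.num ≠ 0 := Rat.num_ne_zero.2 hc0
  refine ⟨K, M * c.num.natAbs, M * c.den, ?_, ?_, ?_⟩
  · exact Nat.mul_pos hM (Int.natAbs_pos.2 hcn)
  · exact Nat.mul_pos hM c.den_pos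
  intro x N B hN hB hd u hu
  have h1 := h c _ (polF k P hk.le) x N B hN hB hd (c.den * u.natAbs) (by
    rw [← mul_assoc]; exact hu)
  have e1 : (M : ℚ) * c * ((c.den * u.natAbs : ℕ) : ℚ) = M * c.num * u.natAbs := by
    push_cast
    have : c * c.den = c.num := Rat.mul_den_eq_num c
    rw [← this]
    ring
  rw [e1] at h1
  have e2 : ((M * c.num.natAbs : ℕ) : ℚ) * u = (M : ℚ) * c.num * u.natAbs ∨
      ((M * c.num.natAbs : ℕ) : ℚ) * u = -((M : ℚ) * c.num * u.natAbs) := by
    have a1 : ((c.num.natAbs : ℕ) : ℚ) = c.num ∨ ((c.num.natAbs : ℕ) : ℚ) = -c.num := by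
      rcases Int.natAbs_eq c.num with h | h
      · left
        conv_rhs => rw [h]
        simp
      · right
        conv_rhs => rw [h]
        simp
    have a2 : (u : ℚ) = u.natAbs ∨ (u : ℚ) = -(u.natAbs : ℚ) := by
      rcases Int.natAbs_eq u with h | h
      · left
        conv_lhs => rw [h]
        simp
      · right
        conv_lhs => rw [h]
        simp
    push_cast at a1 ⊢
    rcases a1 with a1 | a1 <;> rcases a2 with a2 | a2 <;> rw [a1, a2]
    · left; ring
    · right; ring
    · right; ring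
    · left; ring
  rcases e2 with e2 | e2
  · rw [e2]
    exact h1
  · rw [e2]
    exact h1.neg

end Pool.Agent.U84.DD
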