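import Pool.Agent.U84.DD.Moment
import Pool.Agent.U84.DD.PolF

/-!
# Differences of primes of a relatively dense set
-/

set_option autoImplicit false

namespace Pool.Agent.U84.DD

open Finset Pool.Agent.H357R2.SI

/-- the pairs of elements of `B` are counted by their differences -/
theorem pairs_count (a N : ℕ) (B : Finset ℕ) (hB : B ⊆ Ioc a (a + N))
    (hp : ∀ b ∈ B, b.Prime) :
    (B.card : ℝ) ^ 2 - B.card ≤ 2 * ∑ h ∈ (Icc 1 N).filter (fun h => ∃ b ∈ B, b + h ∈ B),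
      (((Ioc a (a + N)).filter (fun n => n.Prime ∧ (n + h).Prime)).card : ℝ) := by
  classical
  set P := (B ×ˢ B).filter (fun p => p.1 < p.2) with hP
  set S := (Icc 1 N).filter (fun h => ∃ b ∈ B, b + h ∈ B) with hS
  have h1 : B.offDiag.card ≤ 2 * P.card := by
    have h2 : B.offDiag ⊆ P ∪ P.image Prod.swap := by
      rintro ⟨x, y⟩ hxy
      rw [mem_offDiag] at hxy
      rcases lt_or_gt_of_ne hxy.2.2 with h | h
      · exact mem_union_left _ (mem_filter.2 ⟨mem_product.2 ⟨hxy.1, hxy.2.1⟩, h⟩)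
      · exact mem_union_right _ (mem_image.2 ⟨(y, x),
          mem_filter.2 ⟨mem_product.2 ⟨hxy.2.1, hxy.1⟩, h⟩, rfl⟩)
    have h3 := card_le_card h2
    have h4 := card_union_le P (P.image Prod.swap)
    have h5 : (P.image Prod.swap).card ≤ P.card := card_image_le
    omega
  have h2 : P.card ≤ ∑ h ∈ S, ((Ioc a (a + N)).filter (fun n => n.Prime ∧ (n + h).Prime)).card := by
    have hmap : ∀ p ∈ P, p.2 - p.1 ∈ S := by
      rintro ⟨x, y⟩ hxy
      rw [hP, mem_filter, mem_product] at hxy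
      obtain ⟨⟨hx, hy⟩, hlt⟩ := hxy
      simp only at hx hy hlt ⊢
      have hx' := mem_Ioc.1 (hB hx)
      have hy' := mem_Ioc.1 (hB hy)
      rw [hS, mem_filter, mem_Icc]
      refine ⟨⟨by omega, by omega⟩, x, hx, ?_⟩
      rwa [Nat.add_sub_cancel' hlt.le]
    rw [card_eq_sum_card_fiberwise hmap]
    refine sum_le_sum fun h _ => ?_
    apply card_le_card_of_injOn (fun p => p.1)
    · rintro ⟨x, y⟩ hxy
      rw [mem_coe, mem_filter, hP, mem_filter, mem_product] at hxy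
      obtain ⟨⟨⟨hx, hy⟩, hlt⟩, he⟩ := hxy
      simp only at hx hy hlt he ⊢
      rw [mem_coe, mem_filter]
      refine ⟨hB hx, hp x hx, ?_⟩
      have : x + h = y := by omega
      rw [this]
      exact hp y hy
    · rintro ⟨x, y⟩ hxy ⟨x', y'⟩ hxy' he
      rw [mem_coe, mem_filter, hP, mem_filter, mem_product] at hxy hxy'
      obtain ⟨⟨⟨hx, hy⟩, hlt⟩, h3⟩ := hxy
      obtain ⟨⟨⟨hx', hy'⟩, hlt'⟩, h3'⟩ := hxy'
      simp only at hlt h3 hlt' h3' he
      subst he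
      have : y = y' := by omega
      rw [this]
  have h3 : (B.offDiag.card : ℝ) = (B.card : ℝ) ^ 2 - B.card := by
    rw [offDiag_card, Nat.cast_sub (Nat.le_mul_self _)]
    push_cast
    ring
  rw [← h3]
  have h4 : (B.offDiag.card : ℝ) ≤ 2 * (P.card : ℝ) := by exact_mod_cast h1
  have h5 : (P.card : ℝ) ≤ ∑ h ∈ S,
      (((Ioc a (a + N)).filter (fun n => n.Prime ∧ (n + h).Prime)).card : ℝ) := by
    exact_mod_cast h2
  linarith

/-- the differences have positive density -/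
theorem diff_dense {η : ℝ} (hη : 0 < η) : ∃ η' : ℝ, 0 < η' ∧ ∃ N₁ : ℕ, ∀ (a N : ℕ) (B : Finset ℕ),
    N₁ ≤ N → B ⊆ Ioc a (a + N) → (∀ b ∈ B, b.Prime) → η * (N / Real.log N) ≤ B.card →
    η' * N ≤ (((Icc 1 N).filter (fun h => ∃ b ∈ B, b + h ∈ B)).card : ℝ) := by
  classical
  obtain ⟨C, hC, u0, hpair⟩ := pair_sieve
  obtain ⟨C4, hC4, h4⟩ := sum_sg_four
  -- `N / log N` is large
  have hlim : ∀ᶠ N : ℕ in Filter.atTop, 2 ≤ η * (N / Real.log N) := by
    have h1 := (Real.isLittleO_log_id_atTop.bound (by positivity : (0 : ℝ) < η / 2))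
    have h2 := (tendsto_natCast_atTop_atTop (R := ℝ)).eventually h1
    filter_upwards [h2, Filter.eventually_ge_atTop 2] with N hN hN2
    have hN2' : (2 : ℝ) ≤ N := by exact_mod_cast hN2
    have hlog : 0 < Real.log N := Real.log_pos (by linarith)
    simp only [id, Real.norm_eq_abs] at hN
    rw [abs_of_pos hlog, abs_of_pos (by linarith)] at hN
    rw [← mul_div_assoc, le_div_iff₀ hlog]
    linarith
  obtain ⟨N2, hN2⟩ := Filter.eventually_atTop.1 hlim
  refine ⟨η ^ 4 / (16 * C ^ 2 * C4), by positivity, max (max u0 N2) 2, ?_⟩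
  intro a N B hN hB hp hd
  have hNu : u0 ≤ N := (le_max_left _ _).trans ((le_max_left _ _).trans hN)
  have hNN : N2 ≤ N := (le_max_right _ _).trans ((le_max_left _ _).trans hN)
  have hN2' : 2 ≤ N := (le_max_right _ _).trans hN
  have hNr : (2 : ℝ) ≤ N := by exact_mod_cast hN2'
  have hlog : 0 < Real.log N := Real.log_pos (by linarith)
  set S := (Icc 1 N).filter (fun h => ∃ b ∈ B, b + h ∈ B) with hS
  set L : ℝ := N / Real.log N with hL
  have hL0 : 0 < L := by positivity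
  have hb2 : 2 ≤ η * L := hN2 N hNN
  have h1 := pairs_count a N B hB hp
  rw [← hS] at h1
  have h2 : ∑ h ∈ S, (((Ioc a (a + N)).filter (fun n => n.Prime ∧ (n + h).Prime)).card : ℝ) ≤
      ∑ h ∈ S, C * sg h ^ 2 * N / Real.log N ^ 2 := by
    refine sum_le_sum fun h hh => ?_
    rw [hS, mem_filter, mem_Icc] at hh
    exact hpair h a N (by omega) hNu
  have h3 : ∑ h ∈ S, C * sg h ^ 2 * N / Real.log N ^ 2 =
      (C * N / Real.log N ^ 2) * ∑ h ∈ S, sg h ^ 2 := by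
    rw [mul_sum]
    exact sum_congr rfl fun h _ => by ring
  -- the lower bound
  have h5 : (η * L) ^ 2 / 2 ≤ (B.card : ℝ) ^ 2 - B.card := by
    have : (2 : ℝ) ≤ B.card := hb2.trans hd
    nlinarith
  have h6 : η ^ 2 * N / (4 * C) ≤ ∑ h ∈ S, sg h ^ 2 := by
    have h7 : (η * L) ^ 2 / 2 ≤ 2 * ((C * N / Real.log N ^ 2) * ∑ h ∈ S, sg h ^ 2) := by
      rw [← h3]
      linarith
    have h8 : (η * L) ^ 2 / 2 = (C * N / Real.log N ^ 2) * (2 * (η ^ 2 * N / (4 * C))) := by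
      rw [hL]
      field_simp
      ring
    have h9 : 0 < C * N / Real.log N ^ 2 := by positivity
    rw [h8] at h7
    have h10 : (C * N / Real.log N ^ 2) * (η ^ 2 * N / (4 * C)) ≤
        (C * N / Real.log N ^ 2) * ∑ h ∈ S, sg h ^ 2 := by linarith
    exact le_of_mul_le_mul_left h10 h9
  -- Cauchy-Schwarz
  have h7 : (∑ h ∈ S, sg h ^ 2) ^ 2 ≤ S.card * (C4 * N) := by
    have h8 : (∑ h ∈ S, sg h ^ 2) ^ 2 ≤ S.card * ∑ h ∈ S, (sg h ^ 2) ^ 2 :=
      sq_sum_le_card_mul_sum_sq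
    refine h8.trans (mul_le_mul_of_nonneg_left ?_ (Nat.cast_nonneg _))
    calc ∑ h ∈ S, (sg h ^ 2) ^ 2 = ∑ h ∈ S, sg h ^ 4 := sum_congr rfl fun h _ => by ring
      _ ≤ ∑ h ∈ Icc 1 N, sg h ^ 4 :=
          sum_le_sum_of_subset_of_nonneg (filter_subset _ _) fun h _ _ => by positivity
      _ ≤ C4 * N := h4 N
  have h8 : (η ^ 2 * N / (4 * C)) ^ 2 ≤ S.card * (C4 * N) :=
    (pow_le_pow_left₀ (by positivity) h6 2).trans h7
  have h9 : (η ^ 2 * N / (4 * C)) ^ 2 = (η ^ 4 / (16 * C ^ 2 * C4) * N) * (C4 * N) := by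
    field_simp
    ring
  rw [h9] at h8
  exact le_of_mul_le_mul_right h8 (by positivity)

/-- the multiples of one integer are sums of differences of primes of a relatively dense set -/
theorem prime_multiples {η : ℝ} (hη : 0 < η) : ∃ K g N₁ : ℕ, 1 ≤ g ∧
    ∀ (a N : ℕ) (B : Finset ℕ), N₁ ≤ N → B ⊆ Ioc a (a + N) → (∀ b ∈ B, b.Prime) →
    η * (N / Real.log N) ≤ B.card → ∀ u : ℤ, g * u.natAbs ≤ N →
    SD K {z : ℚ | ∃ b ∈ B, z = b} (g * u) := by
  classical
  obtain ⟨η', hη', N₁, h⟩ := diff_dense hη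
  obtain ⟨K, M, hM, h0⟩ := pol_diff 0 η' hη'
  refine ⟨K * 2, M, max N₁ 1, hM, ?_⟩
  intro a N B hN hB hp hd u hu
  have hN1 : N₁ ≤ N := (le_max_left _ _).trans hN
  have hN2 : 1 ≤ N := (le_max_right _ _).trans hN
  set S := (Icc 1 N).filter (fun h => ∃ b ∈ B, b + h ∈ B) with hS
  have h1 := h a N B hN1 hB hp hd
  rw [← hS] at h1
  set S' : Finset ℤ := S.image (fun n : ℕ => (n : ℤ)) with hS'
  have hc : S'.card = S.card := card_image_of_injective _ Nat.cast_injective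
  have hsub : S' ⊆ Ioc (0 : ℤ) (0 + N) := by
    intro z hz
    rw [hS', mem_image] at hz
    obtain ⟨n, hn, rfl⟩ := hz
    rw [hS, mem_filter, mem_Icc] at hn
    rw [mem_Ioc]
    constructor
    · exact_mod_cast hn.1.1
    · rw [zero_add]; exact_mod_cast hn.1.2
  have h2 := h0 1 (fun n => (n : ℚ)) (fun a b => by ring) 0 N S' hN2 hsub
    (by rw [hc]; exact h1) u.natAbs hu
  rw [mul_one] at h2
  have h3 : SD (K * 2) {z : ℚ | ∃ b ∈ B, z = b} ((M : ℚ) * ((u.natAbs : ℕ) : ℚ)) := by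
    refine SD.bind ?_ h2
    rintro _ ⟨n, hn, rfl⟩ _ ⟨m, hm, rfl⟩
    rw [hS', mem_image] at hn hm
    obtain ⟨n, hn, rfl⟩ := hn
    obtain ⟨m, hm, rfl⟩ := hm
    rw [hS, mem_filter] at hn hm
    obtain ⟨b, hb, hbn⟩ := hn.2
    obtain ⟨b', hb', hbm⟩ := hm.2
    refine ⟨![((b + n : ℕ) : ℚ), (b' : ℚ)], ![(b : ℚ), ((b' + m : ℕ) : ℚ)], ?_, ?_⟩
    · intro i
      fin_cases i
      · exact ⟨⟨b + n, hbn, rfl⟩, ⟨b, hb, rfl⟩⟩
      · exact ⟨⟨b', hb', rfl⟩, ⟨b' + m, hbm, rfl⟩⟩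
    · rw [Fin.sum_univ_two]
      simp only [Matrix.cons_val_zero, Matrix.cons_val_one, Matrix.cons_val_fin_one]
      push_cast
      ring
  rcases Int.natAbs_eq u with hu' | hu'
  · have : (u : ℚ) = ((u.natAbs : ℕ) : ℚ) := by
      conv_lhs => rw [hu']
      simp
    rw [this]
    exact h3
  · have h5 : (u : ℚ) = -((u.natAbs : ℕ) : ℚ) := by
      conv_lhs => rw [hu']
      simp
    have : (M : ℚ) * (u : ℚ) = -((M : ℚ) * ((u.natAbs : ℕ) : ℚ)) := by
      rw [h5]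
      ring
    rw [this]
    exact h3.neg

end Pool.Agent.U84.DD
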