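import Pool.Agent.U84.DD.Main
import Pool.Agent.U84.DD.Primes

/-!
# Existential definitions over `ℚ` with a predicate for a set `D`
-/

set_option autoImplicit false

namespace Pool.Agent.U84.DD

open MvPolynomial
open Pool.Agent.TH255.HC Pool.Agent.TH255.QI

/-- `A ⊆ ℚ` is existentially definable (Diophantine) in `ℚ`. -/
def Dio (A : Set ℚ) : Prop :=
  ∃ (n : ℕ) (P : MvPolynomial (Fin (n + 1)) ℤ), ∀ q : ℚ, q ∈ A ↔
    ∃ y : Fin n → ℚ, aeval (Fin.cons q y : Fin (n + 1) → ℚ) P = 0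

/-- There is one existential formula in the language of rings with one more unary predicate which
defines the set of integers in the ring `ℚ` with a predicate for the set `D`, for all sets `D` of
the class `𝒟`. -/
def DefinesZ (𝒟 : Set ℚ → Prop) : Prop :=
  ∃ (n : ℕ) (F : MvPolynomial (Fin (n + 1)) ℤ) (S : Finset (Fin (n + 1))), ∀ D : Set ℚ, 𝒟 D →
    ∀ x : ℚ, (∃ z : ℤ, (z : ℚ) = x) ↔
      ∃ y : Fin (n + 1) → ℚ, y 0 = x ∧ aeval y F = 0 ∧ ∀ s ∈ S, y s ∈ D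

theorem definesZ_of {𝒟 : Set ℚ → Prop} (h : DT 𝒟 (fun _ v => ∃ z : ℤ, v 0 = z)) : DefinesZ 𝒟 := by
  obtain ⟨n, F, S, hF⟩ := DT.final (Q := fun x => ∃ z : ℤ, x = z) h
  refine ⟨n, F, S, fun D hD x => ?_⟩
  rw [← hF D hD x]
  exact exists_congr fun z => eq_comm

theorem dio_of {𝒟 : Set ℚ → Prop} (h : DefinesZ 𝒟) {D : Set ℚ} (hD : 𝒟 D) (h1 : Dio D) :
    Dio {x : ℚ | ∃ z : ℤ, (z : ℚ) = x} := by
  classical
  obtain ⟨n, F, S, hF⟩ := h
  obtain ⟨m, Q, hQ⟩ := h1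
  let τ := Fin (n + 1) ⊕ (Fin (n + 1) × Fin m)
  let r : Fin (n + 1) → Fin (m + 1) → τ := fun s =>
    Fin.cons (Sum.inl s) (fun j => Sum.inr (s, j))
  let L : List (MvPolynomial τ ℤ) := rename Sum.inl F :: (S.toList.map fun s => rename (r s) Q)
  obtain ⟨E, hE⟩ := single L
  let e := Fintype.equivFin τ
  refine ⟨Fintype.card τ, rename (fun t => (e t).succ) E ^ 2 +
    (X 0 - X (e (Sum.inl 0)).succ) ^ 2, fun x => ?_⟩
  have key : ∀ w : τ → ℚ, aeval w E = 0 ↔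
      aeval (fun i => w (Sum.inl i)) F = 0 ∧
        ∀ s ∈ S, aeval (Fin.cons (w (Sum.inl s)) (fun j => w (Sum.inr (s, j))) :
          Fin (m + 1) → ℚ) Q = 0 := by
    intro w
    rw [hE]
    simp only [L, List.mem_cons, List.mem_map, Finset.mem_toList]
    have e1 : aeval w (rename Sum.inl F : MvPolynomial τ ℤ) = aeval (fun i => w (Sum.inl i)) F := by
      rw [aeval_rename]
      rfl
    have e2 : ∀ s, aeval w (rename (r s) Q) =
        aeval (Fin.cons (w (Sum.inl s)) (fun j => w (Sum.inr (s, j))) : Fin (m + 1) → ℚ) Q := by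
      intro s
      rw [aeval_rename]
      congr 2
      funext i
      refine Fin.cases rfl (fun j => rfl) i
    constructor
    · intro h
      refine ⟨?_, fun s hs => ?_⟩
      · rw [← e1]
        exact h _ (Or.inl rfl)
      · rw [← e2]
        exact h _ (Or.inr ⟨s, hs, rfl⟩)
    · rintro ⟨h1, h2⟩ p (rfl | ⟨s, hs, rfl⟩)
      · rw [e1]
        exact h1
      · rw [e2]
        exact h2 s hs
  have hev : ∀ y : Fin (Fintype.card τ) → ℚ,
      aeval (Fin.cons x y : Fin (Fintype.card τ + 1) → ℚ) (rename (fun t => (e t).succ) E ^ 2 +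
        (X 0 - X (e (Sum.inl 0)).succ) ^ 2 : MvPolynomial _ ℤ) =
      aeval (fun t => y (e t)) E ^ 2 + (x - y (e (Sum.inl 0))) ^ 2 := by
    intro y
    rw [map_add, map_pow, map_pow, map_sub, aeval_X, aeval_X, aeval_rename, Fin.cons_zero,
      Fin.cons_succ]
    rfl
  change (∃ z : ℤ, (z : ℚ) = x) ↔ _
  rw [hF D hD x]
  constructor
  · rintro ⟨y, hy0, hyF, hyS⟩
    have h2 : ∀ s, ∃ z : Fin m → ℚ, s ∈ S →
        aeval (Fin.cons (y s) z : Fin (m + 1) → ℚ) Q = 0 := by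
      intro s
      by_cases hs : s ∈ S
      · obtain ⟨z, hz⟩ := (hQ _).1 (hyS s hs)
        exact ⟨z, fun _ => hz⟩
      · exact ⟨fun _ => 0, fun h => absurd h hs⟩
    choose z hz using h2
    let w : τ → ℚ := Sum.elim y (fun p => z p.1 p.2)
    refine ⟨fun i => w (e.symm i), ?_⟩
    rw [hev]
    have h3 : (fun t => (fun i => w (e.symm i)) (e t)) = w := by
      funext t
      simp
    have h4 : aeval w E = 0 := (key w).2 ⟨hyF, fun s hs => hz s hs⟩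
    rw [h3, h4]
    have h5 : w (e.symm (e (Sum.inl 0))) = x := by
      rw [Equiv.symm_apply_apply]
      exact hy0
    rw [h5]
    ring
  · rintro ⟨y, hy⟩
    rw [hev] at hy
    have h3 : aeval (fun t => y (e t)) E = 0 := by
      have a1 := sq_nonneg (aeval (fun t => y (e t)) E : ℚ)
      have a2 := sq_nonneg (x - y (e (Sum.inl 0)))
      have : (aeval (fun t => y (e t)) E : ℚ) ^ 2 = 0 := by linarith
      exact pow_eq_zero_iff (two_ne_zero) |>.1 this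
    have h4 : x = y (e (Sum.inl 0)) := by
      have a1 := sq_nonneg (aeval (fun t => y (e t)) E : ℚ)
      have a2 := sq_nonneg (x - y (e (Sum.inl 0)))
      have : (x - y (e (Sum.inl 0))) ^ 2 = 0 := by linarith
      exact sub_eq_zero.1 (pow_eq_zero_iff (two_ne_zero) |>.1 this)
    obtain ⟨h5, h6⟩ := (key _).1 h3
    exact ⟨fun i => y (e (Sum.inl i)), h4.symm, h5, fun s hs => (hQ _).2 ⟨_, h6 s hs⟩⟩

/-! ### the classes -/

/-- The elements of `D` are integers. -/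
def Integral (D : Set ℚ) : Prop := ∀ x ∈ D, ∃ z : ℤ, (z : ℚ) = x

/-- For arbitrarily large `N` there is an interval of `N` consecutive integers which contains at
least `η N` integers `n` with `P(n)` in `D`. -/
def DenseValues (P : Polynomial ℚ) (η : ℝ) (D : Set ℚ) : Prop :=
  ∀ N₀ : ℕ, ∃ (N : ℕ) (x : ℤ), N₀ ≤ N ∧
    η * N ≤ ({n : ℤ | x < n ∧ n ≤ x + N ∧ P.eval (n : ℚ) ∈ D}.ncard : ℝ)

/-- For arbitrarily large `N` there is `x ≥ 0` such that at least `η N / log N` prime numbers in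
`(x, x + N]` are in `D`. -/
def DensePrimes (η : ℝ) (D : Set ℚ) : Prop :=
  ∀ N₀ : ℕ, ∃ N x : ℕ, N₀ ≤ N ∧
    η * (N / Real.log N) ≤ ({p : ℕ | x < p ∧ p ≤ x + N ∧ p.Prime ∧ (p : ℚ) ∈ D}.ncard : ℝ)

/-- For all `N ≥ N₀` at least `η N` of the integers `1 ≤ n ≤ N` satisfy `P(n) ∈ D`. -/
def LowerValues (P : Polynomial ℚ) (η : ℝ) (N₀ : ℕ) (D : Set ℚ) : Prop :=
  ∀ N : ℕ, N₀ ≤ N → η * N ≤ ({n : ℕ | 1 ≤ n ∧ n ≤ N ∧ P.eval (n : ℚ) ∈ D}.ncard : ℝ)

/-- For all `N ≥ N₀` at least `η N / log N` prime numbers `p ≤ N` are in `D`. -/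
def LowerPrimes (η : ℝ) (N₀ : ℕ) (D : Set ℚ) : Prop :=
  ∀ N : ℕ, N₀ ≤ N → η * (N / Real.log N) ≤ ({p : ℕ | p ≤ N ∧ p.Prime ∧ (p : ℚ) ∈ D}.ncard : ℝ)

theorem SD_nonempty {K : ℕ} {S : Set ℚ} {z : ℚ} (h : SD K S z) (hz : z ≠ 0) : S.Nonempty := by
  obtain ⟨a, b, hab, rfl⟩ := h
  rcases Nat.eq_zero_or_pos K with h0 | h0
  · subst h0
    simp at hz
  · exact ⟨_, (hab ⟨0, h0⟩).1⟩

theorem int_values (P : Polynomial ℚ) (hP : 0 < P.natDegree) (η : ℝ) (hη : 0 < η) :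
    ∃ K g : ℕ, 1 ≤ g ∧ ∀ D, DenseValues P η D → ∀ z : ℤ, SD K D (g * z) := by
  classical
  obtain ⟨K, g, q, hg, hq, h⟩ := multiples hP hη
  refine ⟨K, g, hg, fun D hD z => ?_⟩
  obtain ⟨N, x, hN, hd⟩ := hD (max 1 (q * z.natAbs))
  set B : Finset ℤ := (Finset.Ioc x (x + N)).filter fun n => P.eval (n : ℚ) ∈ D with hB
  have h1 : ({n : ℤ | x < n ∧ n ≤ x + N ∧ P.eval (n : ℚ) ∈ D}) = (B : Set ℤ) := by
    ext n
    rw [hB, Finset.coe_filter]
    simp only [Finset.mem_Ioc, Set.mem_ofPred_eq]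
    tauto
  rw [h1, Set.ncard_coe_finset] at hd
  refine (h x N B ((le_max_left _ _).trans hN) (Finset.filter_subset _ _) hd z
    ((le_max_right _ _).trans hN)).mono ?_
  rintro _ ⟨n, hn, rfl⟩
  exact (Finset.mem_filter.1 hn).2

theorem int_primes (η : ℝ) (hη : 0 < η) :
    ∃ K g : ℕ, 1 ≤ g ∧ ∀ D, DensePrimes η D → ∀ z : ℤ, SD K D (g * z) := by
  classical
  obtain ⟨K, g, N₁, hg, h⟩ := prime_multiples hη
  refine ⟨K, g, hg, fun D hD z => ?_⟩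
  obtain ⟨N, x, hN, hd⟩ := hD (max N₁ (g * z.natAbs))
  set B : Finset ℕ := (Finset.Ioc x (x + N)).filter fun p => p.Prime ∧ (p : ℚ) ∈ D with hB
  have h1 : ({p : ℕ | x < p ∧ p ≤ x + N ∧ p.Prime ∧ (p : ℚ) ∈ D}) = (B : Set ℕ) := by
    ext n
    rw [hB, Finset.coe_filter]
    simp only [Finset.mem_Ioc, Set.mem_ofPred_eq]
    tauto
  rw [h1, Set.ncard_coe_finset] at hd
  refine (h x N B ((le_max_left _ _).trans hN) (Finset.filter_subset _ _)
    (fun b hb => (Finset.mem_filter.1 hb).2.1) hd z ((le_max_right _ _).trans hN)).mono ?_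
  rintro _ ⟨n, hn, rfl⟩
  exact (Finset.mem_filter.1 hn).2.2

/-- both kinds of sets of integers -/
theorem ints_all (P : Polynomial ℚ) (hP : 0 < P.natDegree) (η : ℝ) (hη : 0 < η) :
    DT (fun D => Integral D ∧ (DenseValues P η D ∨ DensePrimes η D))
      (fun _ v => ∃ z : ℤ, v 0 = z) := by
  obtain ⟨K₁, g₁, hg₁, h₁⟩ := int_values P hP η hη
  obtain ⟨K₂, g₂, hg₂, h₂⟩ := int_primes η hη
  refine dt_ints (K₁ + K₂) (g₁ * g₂) (Nat.mul_pos hg₁ hg₂) (fun D hD x hx => ?_) (fun D hD z => ?_)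
  · obtain ⟨z, hz⟩ := hD.1 x hx
    exact ⟨z, hz.symm⟩
  · rcases hD.2 with h | h
    · have h3 := h₁ D h (g₂ * z)
      have h4 := SD_nonempty (h₁ D h 1) (by
        have : (g₁ : ℚ) ≠ 0 := by exact_mod_cast (by omega : g₁ ≠ 0)
        simpa using this)
      have e : ((g₁ * g₂ : ℕ) : ℚ) * z = (g₁ : ℚ) * ((g₂ * z : ℤ) : ℚ) := by push_cast; ring
      rw [e]
      exact h3.le (by omega) h4
    · have h3 := h₂ D h (g₁ * z)
      have h4 := SD_nonempty (h₂ D h 1) (by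
        have : (g₂ : ℚ) ≠ 0 := by exact_mod_cast (by omega : g₂ ≠ 0)
        simpa using this)
      have e : ((g₁ * g₂ : ℕ) : ℚ) * z = (g₂ : ℚ) * ((g₁ * z : ℤ) : ℚ) := by push_cast; ring
      rw [e]
      exact h3.le (by omega) h4

/-- polynomials grow at most polynomially -/
theorem pol_growth (P : Polynomial ℚ) : ∃ C d : ℕ, ∀ n : ℕ, P.eval (n : ℚ) ^ 2 ≤
    C * (1 + (n : ℚ)) ^ (2 * d) := by
  obtain ⟨C, hC⟩ := exists_nat_ge (∑ i ∈ Finset.range (P.natDegree + 1), |P.coeff i|)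
  refine ⟨C ^ 2, P.natDegree, fun n => ?_⟩
  have h1 : |P.eval (n : ℚ)| ≤ C * (1 + (n : ℚ)) ^ P.natDegree := by
    rw [Polynomial.eval_eq_sum_range]
    calc |∑ i ∈ Finset.range (P.natDegree + 1), P.coeff i * (n : ℚ) ^ i|
        ≤ ∑ i ∈ Finset.range (P.natDegree + 1), |P.coeff i * (n : ℚ) ^ i| :=
          Finset.abs_sum_le_sum_abs _ _
      _ ≤ ∑ i ∈ Finset.range (P.natDegree + 1), |P.coeff i| * (1 + (n : ℚ)) ^ P.natDegree := by
          refine Finset.sum_le_sum fun i hi => ?_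
          rw [Finset.mem_range] at hi
          rw [abs_mul]
          apply mul_le_mul_of_nonneg_left _ (abs_nonneg _)
          have h0 : (0 : ℚ) ≤ n := Nat.cast_nonneg n
          rw [abs_of_nonneg (pow_nonneg h0 i)]
          calc (n : ℚ) ^ i ≤ (1 + (n : ℚ)) ^ i := pow_le_pow_left₀ h0 (by linarith) i
            _ ≤ (1 + (n : ℚ)) ^ P.natDegree := pow_le_pow_right₀ (by linarith) (by omega)
      _ = (∑ i ∈ Finset.range (P.natDegree + 1), |P.coeff i|) * (1 + (n : ℚ)) ^ P.natDegree := by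
          rw [Finset.sum_mul]
      _ ≤ _ := by
          apply mul_le_mul_of_nonneg_right hC
          positivity
  calc P.eval (n : ℚ) ^ 2 = |P.eval (n : ℚ)| ^ 2 := (sq_abs _).symm
    _ ≤ (C * (1 + (n : ℚ)) ^ P.natDegree) ^ 2 := pow_le_pow_left₀ (abs_nonneg _) h1 2
    _ = _ := by push_cast; ring

/-- sizes -/
theorem size_n {n N M d : ℕ} {z : ℤ} (hn : n ≤ N) (hN : N ≤ M * (1 + z.natAbs)) (hM : 1 ≤ M) :
    (1 + (n : ℚ)) ^ (2 * d) ≤ ((2 * (2 * M) ^ 2) ^ d : ℕ) * (1 + (z : ℚ) ^ 2) ^ d := by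
  have h1 : (1 + (n : ℚ)) ^ 2 ≤ (2 * (2 * (M : ℚ)) ^ 2) * (1 + (z : ℚ) ^ 2) := by
    have h2 : 1 + n ≤ 2 * M * (1 + z.natAbs) := by
      have a1 : 1 ≤ M * (1 + z.natAbs) := Nat.mul_pos hM (by omega)
      have a2 : 2 * M * (1 + z.natAbs) = 2 * (M * (1 + z.natAbs)) := by ring
      omega
    have h3 : (1 + (n : ℚ)) ≤ 2 * M * (1 + (z.natAbs : ℚ)) := by exact_mod_cast h2
    have h4 : (z : ℚ) ^ 2 = (z.natAbs : ℚ) ^ 2 := by
      rw [Nat.cast_natAbs, ← Int.cast_pow |z|, sq_abs, Int.cast_pow]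
    rw [h4]
    have h5 : (1 + (n : ℚ)) ^ 2 ≤ (2 * M * (1 + (z.natAbs : ℚ))) ^ 2 :=
      pow_le_pow_left₀ (by positivity) h3 2
    refine h5.trans ?_
    have h6 : (1 + (z.natAbs : ℚ)) ^ 2 ≤ 2 * (1 + (z.natAbs : ℚ) ^ 2) := by
      nlinarith [sq_nonneg ((z.natAbs : ℚ) - 1)]
    calc (2 * M * (1 + (z.natAbs : ℚ))) ^ 2 = (2 * M) ^ 2 * (1 + (z.natAbs : ℚ)) ^ 2 := by ring
      _ ≤ (2 * M) ^ 2 * (2 * (1 + (z.natAbs : ℚ) ^ 2)) := by gcongr
      _ = _ := by ring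
  rw [pow_mul]
  push_cast
  calc ((1 + (n : ℚ)) ^ 2) ^ d ≤ ((2 * (2 * (M : ℚ)) ^ 2) * (1 + (z : ℚ) ^ 2)) ^ d :=
        pow_le_pow_left₀ (by positivity) h1 d
    _ = _ := by rw [mul_pow]

theorem quasi_values (P : Polynomial ℚ) (hP : 0 < P.natDegree) (η : ℝ) (hη : 0 < η) (N₀ : ℕ) :
    ∃ K g C κ : ℕ, 1 ≤ g ∧ ∀ D, LowerValues P η N₀ D → ∀ z : ℤ, ∃ S : Set ℚ, S ⊆ D ∧
      (∀ y ∈ S, y ^ 2 ≤ C * (1 + (z : ℚ) ^ 2) ^ κ) ∧ SD K S (g * z) := by
  classical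
  obtain ⟨K, g, q, hg, hq, h⟩ := multiples hP hη
  obtain ⟨C, d, hC⟩ := pol_growth P
  set M := N₀ + 1 + q with hM
  refine ⟨K, g, C * (2 * (2 * M) ^ 2) ^ d, d, hg, fun D hD z => ?_⟩
  set N := max N₀ (max 1 (q * z.natAbs)) with hN
  have hN0 : N₀ ≤ N := le_max_left _ _
  have hN1 : 1 ≤ N := (le_max_left _ _).trans (le_max_right _ _)
  have hN2 : q * z.natAbs ≤ N := (le_max_right _ _).trans (le_max_right _ _)
  have hN3 : N ≤ M * (1 + z.natAbs) := by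
    rw [hN, hM]
    refine max_le ?_ (max_le ?_ ?_) <;> nlinarith [Nat.zero_le (N₀ * z.natAbs),
      Nat.zero_le (q * z.natAbs), Nat.zero_le z.natAbs]
  have hd := hD N hN0
  set B : Finset ℕ := (Finset.Icc 1 N).filter fun n => P.eval (n : ℚ) ∈ D with hB
  have h1 : ({n : ℕ | 1 ≤ n ∧ n ≤ N ∧ P.eval (n : ℚ) ∈ D}) = (B : Set ℕ) := by
    ext n
    rw [hB, Finset.coe_filter]
    simp only [Finset.mem_Icc, Set.mem_ofPred_eq]
    tauto
  rw [h1, Set.ncard_coe_finset] at hd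
  set B' : Finset ℤ := B.image (fun n : ℕ => (n : ℤ)) with hB'
  have hc : B'.card = B.card := Finset.card_image_of_injective _ Nat.cast_injective
  have hsub : B' ⊆ Finset.Ioc (0 : ℤ) (0 + N) := by
    intro z hz
    rw [hB', Finset.mem_image] at hz
    obtain ⟨n, hn, rfl⟩ := hz
    rw [hB, Finset.mem_filter, Finset.mem_Icc] at hn
    rw [Finset.mem_Ioc]
    constructor
    · exact_mod_cast hn.1.1
    · rw [zero_add]; exact_mod_cast hn.1.2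
  refine ⟨_, ?_, ?_, h 0 N B' hN1 hsub (by rw [hc]; exact hd) z hN2⟩
  · rintro _ ⟨n, hn, rfl⟩
    rw [hB', Finset.mem_image] at hn
    obtain ⟨n, hn, rfl⟩ := hn
    exact_mod_cast (Finset.mem_filter.1 hn).2
  · rintro _ ⟨n, hn, rfl⟩
    rw [hB', Finset.mem_image] at hn
    obtain ⟨n, hn, rfl⟩ := hn
    rw [hB, Finset.mem_filter, Finset.mem_Icc] at hn
    have h2 := hC n
    have h3 := size_n (d := d) hn.1.2 hN3 (by omega)
    change P.eval (((n : ℕ) : ℤ) : ℚ) ^ 2 ≤ _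
    rw [Int.cast_natCast]
    refine h2.trans ?_
    push_cast at h3 ⊢
    rw [mul_assoc]
    exact mul_le_mul_of_nonneg_left h3 (Nat.cast_nonneg C)

theorem quasi_primes (η : ℝ) (hη : 0 < η) (N₀ : ℕ) :
    ∃ K g C κ : ℕ, 1 ≤ g ∧ ∀ D, LowerPrimes η N₀ D → ∀ z : ℤ, ∃ S : Set ℚ, S ⊆ D ∧
      (∀ y ∈ S, y ^ 2 ≤ C * (1 + (z : ℚ) ^ 2) ^ κ) ∧ SD K S (g * z) := by
  classical
  obtain ⟨K, g, N₁, hg, h⟩ := prime_multiples hη
  set M := N₀ + N₁ + g + 1 with hM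
  refine ⟨K, g, 1 * (2 * (2 * M) ^ 2) ^ 1, 1, hg, fun D hD z => ?_⟩
  set N := max N₀ (max N₁ (g * z.natAbs)) with hN
  have hN0 : N₀ ≤ N := le_max_left _ _
  have hN1 : N₁ ≤ N := (le_max_left _ _).trans (le_max_right _ _)
  have hN2 : g * z.natAbs ≤ N := (le_max_right _ _).trans (le_max_right _ _)
  have hN3 : N ≤ M * (1 + z.natAbs) := by
    rw [hN, hM]
    refine max_le ?_ (max_le ?_ ?_) <;> nlinarith [Nat.zero_le (N₀ * z.natAbs),
      Nat.zero_le (N₁ * z.natAbs), Nat.zero_le (g * z.natAbs), Nat.zero_le z.natAbs]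
  have hd := hD N hN0
  set B : Finset ℕ := (Finset.Ioc 0 (0 + N)).filter fun p => p.Prime ∧ (p : ℚ) ∈ D with hB
  have h1 : ({p : ℕ | p ≤ N ∧ p.Prime ∧ (p : ℚ) ∈ D}) = (B : Set ℕ) := by
    ext n
    rw [hB, Finset.coe_filter]
    simp only [Finset.mem_Ioc, Set.mem_ofPred_eq, zero_add]
    constructor
    · rintro ⟨h1, h2, h3⟩
      exact ⟨⟨h2.pos, h1⟩, h2, h3⟩
    · rintro ⟨⟨h1, h2⟩, h3, h4⟩
      exact ⟨h2, h3, h4⟩
  rw [h1, Set.ncard_coe_finset] at hd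
  refine ⟨_, ?_, ?_, h 0 N B hN1 (Finset.filter_subset _ _)
    (fun b hb => (Finset.mem_filter.1 hb).2.1) hd z hN2⟩
  · rintro _ ⟨n, hn, rfl⟩
    exact (Finset.mem_filter.1 hn).2.2
  · rintro _ ⟨n, hn, rfl⟩
    rw [hB, Finset.mem_filter, Finset.mem_Ioc, zero_add] at hn
    have h3 := size_n (d := 1) hn.1.2 hN3 (by omega)
    have h4 : (n : ℚ) ^ 2 ≤ (1 + (n : ℚ)) ^ (2 * 1) := by
      rw [mul_one]
      exact pow_le_pow_left₀ (Nat.cast_nonneg n) (by linarith) 2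
    refine h4.trans ?_
    rw [one_mul]
    exact h3

/-- changing the parameters -/
theorem change {K g C κ K' g' C' κ' t : ℕ} {D : Set ℚ} (hg : 1 ≤ g) (ht : 1 ≤ t)
    (h : ∀ z : ℤ, ∃ S : Set ℚ, S ⊆ D ∧ (∀ y ∈ S, y ^ 2 ≤ C * (1 + (z : ℚ) ^ 2) ^ κ) ∧
      SD K S (g * z)) (hK : K ≤ K') (hg' : g' = g * t) (hC : C * (t ^ 2) ^ κ ≤ C') (hκ : κ ≤ κ')
    (z : ℤ) : ∃ S : Set ℚ, S ⊆ D ∧ (∀ y ∈ S, y ^ 2 ≤ C' * (1 + (z : ℚ) ^ 2) ^ κ') ∧
      SD K' S (g' * z) := by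
  have h1 : ∃ S : Set ℚ, S ⊆ D ∧ S.Nonempty ∧
      (∀ y ∈ S, y ^ 2 ≤ C' * (1 + (z : ℚ) ^ 2) ^ κ') ∧ SD K S (g' * z) := by
    rcases eq_or_ne z 0 with hz | hz
    · subst hz
      obtain ⟨S, hS, hb, h2⟩ := h t
      have hne : S.Nonempty := SD_nonempty h2 (by
        have a1 : (g : ℚ) ≠ 0 := by exact_mod_cast (by omega : g ≠ 0)
        have a2 : ((t : ℤ) : ℚ) ≠ 0 := by exact_mod_cast (by omega : t ≠ 0)
        exact mul_ne_zero a1 a2)
      obtain ⟨S', hS', hb', h3⟩ := h 0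
      obtain ⟨a, b, hab, he⟩ := h3
      rcases Nat.eq_zero_or_pos K with hK0 | hK0
      · subst hK0
        obtain ⟨a', b', _, h2⟩ := h2
        exfalso
        have a1 : (g : ℚ) ≠ 0 := by exact_mod_cast (by omega : g ≠ 0)
        have a2 : ((t : ℤ) : ℚ) ≠ 0 := by exact_mod_cast (by omega : t ≠ 0)
        exact mul_ne_zero a1 a2 (by rw [h2]; simp)
      · refine ⟨S', hS', ⟨_, (hab ⟨0, hK0⟩).1⟩, fun y hy => (hb' y hy).trans ?_, a, b, hab, ?_⟩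
        · simp only [Int.cast_zero, ne_eq, OfNat.ofNat_ne_zero, not_false_eq_true, zero_pow,
            add_zero, one_pow, mul_one]
          have a3 : C ≤ C' := by
            refine le_trans ?_ hC
            exact Nat.le_mul_of_pos_right _ (by positivity)
          exact_mod_cast a3
        · simpa using he
    · obtain ⟨S, hS, hb, h2⟩ := h (t * z)
      have a1 : (g : ℚ) ≠ 0 := by exact_mod_cast (by omega : g ≠ 0)
      have a2 : (t : ℚ) ≠ 0 := by exact_mod_cast (by omega : t ≠ 0)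
      have a3 : (z : ℚ) ≠ 0 := by exact_mod_cast hz
      refine ⟨S, hS, SD_nonempty h2 (by push_cast; exact mul_ne_zero a1 (mul_ne_zero a2 a3)),
        fun y hy => (hb y hy).trans ?_, ?_⟩
      · have b1 : (1 : ℚ) ≤ t := by exact_mod_cast ht
        have b2 : (1 : ℚ) + ((t * z : ℤ) : ℚ) ^ 2 ≤ (t : ℚ) ^ 2 * (1 + (z : ℚ) ^ 2) := by
          push_cast
          nlinarith
        have b3 : (1 : ℚ) ≤ 1 + (z : ℚ) ^ 2 := by nlinarith [sq_nonneg (z : ℚ)]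
        calc (C : ℚ) * (1 + ((t * z : ℤ) : ℚ) ^ 2) ^ κ
            ≤ C * ((t : ℚ) ^ 2 * (1 + (z : ℚ) ^ 2)) ^ κ := by gcongr
          _ = (C * (t ^ 2) ^ κ : ℕ) * (1 + (z : ℚ) ^ 2) ^ κ := by push_cast; rw [mul_pow]; ring
          _ ≤ C' * (1 + (z : ℚ) ^ 2) ^ κ := by
              apply mul_le_mul_of_nonneg_right _ (by positivity)
              exact_mod_cast hC
          _ ≤ C' * (1 + (z : ℚ) ^ 2) ^ κ' := by
              apply mul_le_mul_of_nonneg_left _ (Nat.cast_nonneg _)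
              exact pow_le_pow_right₀ b3 hκ
      · have e : (g' : ℚ) * z = g * ((t * z : ℤ) : ℚ) := by rw [hg']; push_cast; ring
        rw [e]
        exact h2
  obtain ⟨S, hS, hne, hb, h2⟩ := h1
  exact ⟨S, hS, hb, h2.le hK hne⟩

/-- both kinds of sets of quasi-integers -/
theorem quasi_all {δ₀ : ℝ} (h0 : 0 < δ₀)
    (hint : ∀ A δ : ℝ, δ < δ₀ → DT (Qu A δ) (fun _ v => ∃ z : ℤ, v 0 = z))
    {A δ : ℝ} (hδ : δ < δ₀) (P : Polynomial ℚ) (hP : 0 < P.natDegree) (η : ℝ) (hη : 0 < η)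
    (N₀ : ℕ) : DT (fun D => DenLe A δ D ∧ (LowerValues P η N₀ D ∨ LowerPrimes η N₀ D))
      (fun _ v => ∃ z : ℤ, v 0 = z) := by
  obtain ⟨K₁, g₁, C₁, κ₁, hg₁, h₁⟩ := quasi_values P hP η hη N₀
  obtain ⟨K₂, g₂, C₂, κ₂, hg₂, h₂⟩ := quasi_primes η hη N₀
  refine dt_quasi h0 hint hδ (K₁ + K₂) (g₁ * g₂) (C₁ * (g₂ ^ 2) ^ κ₁ + C₂ * (g₁ ^ 2) ^ κ₂)
    (κ₁ + κ₂) (Nat.mul_pos hg₁ hg₂) (fun D hD => hD.1) (fun D hD z => ?_)
  rcases hD.2 with h | h
  · exact change hg₁ hg₂ (h₁ D h) (by omega) rfl (by omega) (by omega) z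
  · exact change hg₂ hg₁ (h₂ D h) (by omega) (mul_comm _ _) (by omega) (by omega) z

end Pool.Agent.U84.DD
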