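import Pool.Agent.TH255.QI.All
import Pool.Agent.U84.DD.PolF
import Pool.Agent.U84.DD.Den

/-!
# Definitions with dense sets
-/

set_option autoImplicit false

namespace Pool.Agent.U84.DD

open Finset MvPolynomial
open Pool.Agent.TH255.HC Pool.Agent.TH255.QI

theorem PF_sum (s : ℕ) (f : ℕ → (ℕ → ℚ) → ℚ) (hf : ∀ i, PF (f i)) :
    PF (fun v => ∑ i ∈ range s, f i v) := by
  induction s with
  | zero => simpa using PF.zero
  | succ s ih =>
    have e : (fun v => ∑ i ∈ range (s + 1), f i v) =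
        fun v => (∑ i ∈ range s, f i v) + f s v := by
      funext v
      rw [sum_range_succ]
    rw [e]
    exact ih.add (hf s)

theorem PF_prod (s : ℕ) (f : ℕ → (ℕ → ℚ) → ℚ) (hf : ∀ i, PF (f i)) :
    PF (fun v => ∏ i ∈ range s, f i v) := by
  induction s with
  | zero => simpa using PF.one
  | succ s ih =>
    have e : (fun v => ∏ i ∈ range (s + 1), f i v) =
        fun v => (∏ i ∈ range s, f i v) * f s v := by
      funext v
      rw [prod_range_succ]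
    rw [e]
    exact ih.mul (hf s)

variable {𝒟 𝒯 : Set ℚ → Prop}

/-- substitution of a definable set -/
theorem DT_subst {Φ : Set ℚ → Set ℚ} (hΦ : ∀ D, 𝒟 D → 𝒯 (Φ D))
    (hm : DT 𝒟 (fun D v => v 0 ∈ Φ D)) {P : Set ℚ → (ℕ → ℚ) → Prop} (h : DT 𝒯 P) :
    DT 𝒟 (fun D v => P (Φ D) v) := by
  obtain ⟨p, S, hp⟩ := h
  have h1 : DT 𝒟 (fun D v => ∃ u : ℕ → ℚ, MvPolynomial.aeval (mix v u) p = 0 ∧
      ∀ s ∈ S, mix v u s ∈ Φ D) := by
    refine DT.exs ?_
    have e : ∀ w : ℕ → ℚ, mix (fun n => w (2 * n)) (fun n => w (2 * n + 1)) = w := by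
      intro w
      funext n
      obtain ⟨m, rfl | rfl⟩ : ∃ m, n = 2 * m ∨ n = 2 * m + 1 := ⟨n / 2, by omega⟩
      · rw [mix_even]
      · rw [mix_odd]
    have h2 : DT 𝒟 (fun D w => MvPolynomial.aeval w p = 0 ∧ ∀ s ∈ S, w s ∈ Φ D) :=
      (DT.eq ⟨p, fun _ => rfl⟩ PF.zero).and (DT.list S fun s => hm.ren (fun _ => s))
    refine h2.congr fun T _ w => ?_
    rw [e]
  exact h1.congr fun D hD v => hp _ (hΦ D hD) v

/-- the rational numbers `x` such that `g x` is the sum of `K` differences of elements of `D`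
which are not much larger than `x` -/
def TT (K g C κ : ℕ) (D : Set ℚ) : Set ℚ :=
  {x | ∃ u : ℕ → ℚ, (∀ i ∈ List.range (2 * K), u i ∈ D ∧ u i ^ 2 ≤ C * (1 + x ^ 2) ^ κ) ∧
    (g : ℚ) * x = ∑ i ∈ range K, (u (2 * i) - u (2 * i + 1))}

theorem dt_TT (K g C κ : ℕ) : DT 𝒟 (fun D v => v 0 ∈ TT K g C κ D) := by
  have h : DT 𝒟 (fun D v => ∃ u : ℕ → ℚ,
      (∀ i ∈ List.range (2 * K), u i ∈ D ∧ u i ^ 2 ≤ C * (1 + v 0 ^ 2) ^ κ) ∧
      (g : ℚ) * v 0 = ∑ i ∈ range K, (u (2 * i) - u (2 * i + 1))) := by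
    refine DT.exs ?_
    have hx : PF (fun w : ℕ → ℚ => w (2 * 0)) := (PF.var 0).ev
    have hC : PF (fun _ : ℕ → ℚ => (C : ℚ)) := by simpa using PF.int (C : ℤ)
    have hg : PF (fun _ : ℕ → ℚ => (g : ℚ)) := by simpa using PF.int (g : ℤ)
    refine (DT.list (List.range (2 * K)) fun i => (DT.mem (PF.od i)).and
      (DT.le ((PF.od i).pow 2) (hC.mul ((PF.one.add (hx.pow 2)).pow κ)))).and ?_
    exact DT.eq (hg.mul hx) (PF_sum K _ fun i => (PF.od (2 * i)).sub (PF.od (2 * i + 1)))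
  exact h

theorem TT_of_SD {K g C κ : ℕ} {D S : Set ℚ} {x : ℚ} (hS : S ⊆ D)
    (hb : ∀ y ∈ S, y ^ 2 ≤ C * (1 + x ^ 2) ^ κ) (h : SD K S (g * x)) : x ∈ TT K g C κ D := by
  obtain ⟨a, b, hab, he⟩ := h
  refine ⟨fun n => if h : n / 2 < K then (if n % 2 = 0 then a ⟨n / 2, h⟩ else b ⟨n / 2, h⟩) else 0,
    ?_, ?_⟩
  · intro i hi
    rw [List.mem_range] at hi
    have h1 : i / 2 < K := by omega
    simp only [h1, dif_pos]
    split_ifs
    · exact ⟨hS (hab _).1, hb _ (hab _).1⟩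
    · exact ⟨hS (hab _).2, hb _ (hab _).2⟩
  · rw [he, ← Fin.sum_univ_eq_sum_range (fun i => (fun n => if h : n / 2 < K then
      (if n % 2 = 0 then a ⟨n / 2, h⟩ else b ⟨n / 2, h⟩) else 0) (2 * i) -
      (fun n => if h : n / 2 < K then
      (if n % 2 = 0 then a ⟨n / 2, h⟩ else b ⟨n / 2, h⟩) else 0) (2 * i + 1))]
    refine sum_congr rfl fun i _ => ?_
    have h1 : 2 * (i : ℕ) / 2 = i := by omega
    have h2 : (2 * (i : ℕ) + 1) / 2 = i := by omega
    have h3 : 2 * (i : ℕ) % 2 = 0 := by omega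
    have h4 : ¬ ((2 * (i : ℕ) + 1) % 2 = 0) := by omega
    simp only [h1, h2, h3, h4, i.2, dif_pos, if_true, if_false]

/-- Sets with small denominators whose elements have the multiples of `g` as small sums of
differences -/
theorem dt_quasi {δ₀ : ℝ} (h0 : 0 < δ₀)
    (hint : ∀ A δ : ℝ, δ < δ₀ → DT (Qu A δ) (fun _ v => ∃ z : ℤ, v 0 = z))
    {A δ : ℝ} (hδ : δ < δ₀) (K g C κ : ℕ) (hg : 1 ≤ g)
    (hD : ∀ D, 𝒟 D → DenLe A δ D)
    (hM : ∀ D, 𝒟 D → ∀ z : ℤ, ∃ S : Set ℚ, S ⊆ D ∧ (∀ y ∈ S, y ^ 2 ≤ C * (1 + (z : ℚ) ^ 2) ^ κ) ∧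
      SD K S (g * z)) : DT 𝒟 (fun _ v => ∃ z : ℤ, v 0 = z) := by
  obtain ⟨A', hA'⟩ := den_bound K g C κ hg A δ
  refine DT_subst (𝒯 := Qu A' (max δ 0)) (Φ := TT K g C κ) (fun D hDD => ?_) (dt_TT K g C κ)
    (hint A' (max δ 0) (max_lt hδ h0))
  refine ⟨fun z => ?_, fun x hx => ?_⟩
  · obtain ⟨S, hS, hb, h1⟩ := hM D hDD z
    exact TT_of_SD hS hb h1
  · obtain ⟨u, hu, hx⟩ := hx
    refine hA' x u (fun i hi => ?_) hx
    obtain ⟨h1, h2⟩ := hu i (List.mem_range.2 hi)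
    exact ⟨hD D hDD _ h1, h2⟩

/-- Sets of integers: sums of differences plus residues -/
theorem dt_ints (K g : ℕ) (hg : 1 ≤ g) (hD : ∀ D, 𝒟 D → ∀ x ∈ D, ∃ z : ℤ, x = z)
    (hM : ∀ D, 𝒟 D → ∀ z : ℤ, SD K D (g * z)) : DT 𝒟 (fun _ v => ∃ z : ℤ, v 0 = z) := by
  have h : DT 𝒟 (fun D v => ∃ u : ℕ → ℚ, (∀ i ∈ List.range (2 * K), u i ∈ D) ∧
      ∏ r ∈ range g, (v 0 - r - ∑ i ∈ range K, (u (2 * i) - u (2 * i + 1))) = 0) := by
    refine DT.exs ?_
    have hx : PF (fun w : ℕ → ℚ => w (2 * 0)) := (PF.var 0).ev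
    refine (DT.list (List.range (2 * K)) fun i => DT.mem (PF.od i)).and ?_
    refine DT.eq (PF_prod g _ fun r => ?_) PF.zero
    have hr : PF (fun _ : ℕ → ℚ => (r : ℚ)) := by simpa using PF.int (r : ℤ)
    exact (hx.sub hr).sub (PF_sum K _ fun i => (PF.od (2 * i)).sub (PF.od (2 * i + 1)))
  refine h.congr fun D hDD v => ?_
  constructor
  · rintro ⟨z, hz⟩
    have h1 := hM D hDD (z / g)
    obtain ⟨a, b, hab, he⟩ := h1
    refine ⟨fun n => if h : n / 2 < K then (if n % 2 = 0 then a ⟨n / 2, h⟩ else b ⟨n / 2, h⟩)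
      else 0, fun i hi => ?_, ?_⟩
    · rw [List.mem_range] at hi
      have h1 : i / 2 < K := by omega
      simp only [h1, dif_pos]
      split_ifs
      · exact (hab _).1
      · exact (hab _).2
    · have hg0 : (0 : ℤ) < g := by exact_mod_cast hg
      have h5 : z % g < g := Int.emod_lt_of_pos _ hg0
      have h6 : 0 ≤ z % g := Int.emod_nonneg _ hg0.ne'
      apply prod_eq_zero (Finset.mem_range.2 (by omega : (z % g).toNat < g))
      have e : ∑ i ∈ range K, ((fun n => if h : n / 2 < K then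
          (if n % 2 = 0 then a ⟨n / 2, h⟩ else b ⟨n / 2, h⟩) else 0) (2 * i) -
          (fun n => if h : n / 2 < K then
          (if n % 2 = 0 then a ⟨n / 2, h⟩ else b ⟨n / 2, h⟩) else 0) (2 * i + 1)) =
          ∑ i, (a i - b i) := by
        rw [← Fin.sum_univ_eq_sum_range (fun i => (fun n => if h : n / 2 < K then
          (if n % 2 = 0 then a ⟨n / 2, h⟩ else b ⟨n / 2, h⟩) else 0) (2 * i) -
          (fun n => if h : n / 2 < K then
          (if n % 2 = 0 then a ⟨n / 2, h⟩ else b ⟨n / 2, h⟩) else 0) (2 * i + 1))]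
        refine sum_congr rfl fun i _ => ?_
        have h1 : 2 * (i : ℕ) / 2 = i := by omega
        have h2 : (2 * (i : ℕ) + 1) / 2 = i := by omega
        have h3 : 2 * (i : ℕ) % 2 = 0 := by omega
        have h4 : ¬ ((2 * (i : ℕ) + 1) % 2 = 0) := by omega
        simp only [h1, h2, h3, h4, i.2, dif_pos, if_true, if_false]
      rw [e, ← he, hz]
      have h7 : (((z % g).toNat : ℕ) : ℚ) = ((z % g : ℤ) : ℚ) := by
        have : (((z % g).toNat : ℕ) : ℤ) = z % g := Int.toNat_of_nonneg h6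
        exact_mod_cast congrArg (fun t : ℤ => (t : ℚ)) this
      rw [h7]
      have h8 := Int.emod_add_mul_ediv z g
      have h9 : (z : ℚ) = ((z % g : ℤ) : ℚ) + g * ((z / g : ℤ) : ℚ) := by
        exact_mod_cast congrArg (fun t : ℤ => (t : ℚ)) h8.symm
      rw [h9]
      ring
  · rintro ⟨u, hu, hp⟩
    rw [prod_eq_zero_iff] at hp
    obtain ⟨r, -, hr⟩ := hp
    have h1 : ∀ i, ∃ z : ℤ, i < 2 * K → u i = z := by
      intro i
      by_cases hi : i < 2 * K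
      · obtain ⟨z, hz⟩ := hD D hDD _ (hu i (List.mem_range.2 hi))
        exact ⟨z, fun _ => hz⟩
      · exact ⟨0, fun h => absurd h hi⟩
    choose w hw using h1
    refine ⟨r + ∑ i ∈ range K, (w (2 * i) - w (2 * i + 1)), ?_⟩
    have h2 : ∑ i ∈ range K, (u (2 * i) - u (2 * i + 1)) =
        ∑ i ∈ range K, ((w (2 * i) : ℚ) - w (2 * i + 1)) := by
      refine sum_congr rfl fun i hi => ?_
      rw [Finset.mem_range] at hi
      rw [hw (2 * i) (by omega), hw (2 * i + 1) (by omega)]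
    rw [h2] at hr
    push_cast
    linarith

end Pool.Agent.U84.DD
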