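import Pool.Agent.H357R2.SI.PairFinal

/-!
# The fourth moment of `σ_{-1}`
-/

set_option autoImplicit false

namespace Pool.Agent.U84.DD

open Finset

/-- `∑_{d ∣ h} d ^ (-α)` -/
noncomputable def sa (α : ℝ) (h : ℕ) : ℝ := ∑ d ∈ h.divisors, (d : ℝ) ^ (-α)

theorem sa_nonneg (α : ℝ) (h : ℕ) : 0 ≤ sa α h := sum_nonneg fun _ _ => by positivity

theorem sa_sq : ∃ c : ℝ, 0 ≤ c ∧ ∀ (α : ℝ) (h : ℕ), sa α h ^ 2 ≤ c * sa (2 * α - 9 / 8) h := by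
  have hsum : Summable (fun n : ℕ => (n : ℝ) ^ (-(9 / 8) : ℝ)) :=
    Real.summable_nat_rpow.mpr (by norm_num)
  refine ⟨∑' n : ℕ, (n : ℝ) ^ (-(9 / 8) : ℝ), tsum_nonneg (fun n => by positivity), fun α h => ?_⟩
  have h2 : sa α h = ∑ d ∈ h.divisors, (d : ℝ) ^ (-(9 / 16) : ℝ) * (d : ℝ) ^ (9 / 16 - α : ℝ) := by
    unfold sa
    apply Finset.sum_congr rfl
    intro d hd
    have hd0 : (0 : ℝ) < d := by exact_mod_cast Nat.pos_of_mem_divisors hd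
    rw [← Real.rpow_add hd0]
    congr 1
    ring
  rw [h2]
  refine (Finset.sum_mul_sq_le_sq_mul_sq _ _ _).trans ?_
  have h3 : ∑ d ∈ h.divisors, ((d : ℝ) ^ (-(9 / 16) : ℝ)) ^ 2 =
      ∑ d ∈ h.divisors, (d : ℝ) ^ (-(9 / 8) : ℝ) := by
    apply Finset.sum_congr rfl
    intro d _
    rw [← Real.rpow_natCast, ← Real.rpow_mul (Nat.cast_nonneg d)]
    norm_num
  have h4 : ∑ d ∈ h.divisors, ((d : ℝ) ^ (9 / 16 - α : ℝ)) ^ 2 = sa (2 * α - 9 / 8) h := by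
    unfold sa
    apply Finset.sum_congr rfl
    intro d _
    rw [← Real.rpow_natCast, ← Real.rpow_mul (Nat.cast_nonneg d)]
    congr 1
    push_cast
    ring
  rw [h3, h4]
  exact mul_le_mul_of_nonneg_right (hsum.sum_le_tsum _ (fun n _ => by positivity)) (sa_nonneg _ _)

theorem sum_sa : ∃ c : ℝ, 0 ≤ c ∧ ∀ T : ℕ, ∑ h ∈ Icc 1 T, sa (5 / 8) h ≤ c * T := by
  have hsum : Summable (fun n : ℕ => (n : ℝ) ^ (-(13 / 8) : ℝ)) :=
    Real.summable_nat_rpow.mpr (by norm_num)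
  refine ⟨∑' n : ℕ, (n : ℝ) ^ (-(13 / 8) : ℝ), tsum_nonneg (fun n => by positivity), fun T => ?_⟩
  have h6 : ∀ h ∈ Finset.Icc 1 T, sa (5 / 8) h =
      ∑ d ∈ Finset.Icc 1 T, if d ∣ h then (d : ℝ) ^ (-(5 / 8) : ℝ) else 0 := by
    intro h hh
    rw [Finset.mem_Icc] at hh
    rw [← Finset.sum_filter]
    unfold sa
    apply Finset.sum_congr _ (fun _ _ => rfl)
    ext d
    rw [Nat.mem_divisors, Finset.mem_filter, Finset.mem_Icc]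
    constructor
    · rintro ⟨h7, h8⟩
      exact ⟨⟨Nat.pos_of_dvd_of_pos h7 (by omega), (Nat.le_of_dvd (by omega) h7).trans hh.2⟩, h7⟩
    · rintro ⟨_, h7⟩
      exact ⟨h7, by omega⟩
  rw [Finset.sum_congr rfl h6, Finset.sum_comm]
  have h7 : ∀ d ∈ Finset.Icc 1 T, (∑ h ∈ Finset.Icc 1 T,
      if d ∣ h then (d : ℝ) ^ (-(5 / 8) : ℝ) else 0) ≤ (d : ℝ) ^ (-(13 / 8) : ℝ) * T := by
    intro d hd
    rw [Finset.mem_Icc] at hd
    have hd0 : (0 : ℝ) < d := by exact_mod_cast hd.1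
    rw [← Finset.sum_filter, Finset.sum_const, nsmul_eq_mul]
    have h8 : ((Finset.Icc 1 T).filter (fun h => d ∣ h)).card = T / d := by
      have := Nat.Ioc_filter_dvd_card_eq_div T d
      rw [← this]
      congr 1
    rw [h8]
    have h9 : ((T / d : ℕ) : ℝ) ≤ (T : ℝ) / d := Nat.cast_div_le
    calc ((T / d : ℕ) : ℝ) * (d : ℝ) ^ (-(5 / 8) : ℝ) ≤ (T : ℝ) / d * (d : ℝ) ^ (-(5 / 8) : ℝ) := by
          gcongr
      _ = (d : ℝ) ^ (-(13 / 8) : ℝ) * T := by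
          rw [show (-(13 / 8) : ℝ) = -1 + -(5 / 8) by norm_num, Real.rpow_add hd0,
            Real.rpow_neg_one]
          field_simp
  refine (Finset.sum_le_sum h7).trans ?_
  rw [← Finset.sum_mul]
  exact mul_le_mul_of_nonneg_right (hsum.sum_le_tsum _ (fun n _ => by positivity))
    (Nat.cast_nonneg T)

open Pool.Agent.H357R2.SI in
theorem sg_eq (h : ℕ) : sg h = sa 1 h := by
  unfold sg sa
  refine sum_congr rfl fun d _ => ?_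
  rw [Real.rpow_neg_one, one_div]

open Pool.Agent.H357R2.SI in
/-- the fourth moment -/
theorem sum_sg_four : ∃ C : ℝ, 1 ≤ C ∧ ∀ T : ℕ, ∑ h ∈ Icc 1 T, sg h ^ 4 ≤ C * T := by
  obtain ⟨c, hc, h1⟩ := sa_sq
  obtain ⟨c2, hc2, h2⟩ := sum_sa
  refine ⟨c ^ 3 * c2 + 1, by have := mul_nonneg (pow_nonneg hc 3) hc2; linarith, fun T => ?_⟩
  have h3 : ∀ h, sg h ^ 4 ≤ c ^ 3 * sa (5 / 8) h := by
    intro h
    have a1 := h1 1 h
    have a2 := h1 (7 / 8) h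
    rw [show (2 * 1 - 9 / 8 : ℝ) = 7 / 8 by norm_num] at a1
    rw [show (2 * (7 / 8) - 9 / 8 : ℝ) = 5 / 8 by norm_num] at a2
    rw [sg_eq]
    calc sa 1 h ^ 4 = (sa 1 h ^ 2) ^ 2 := by ring
      _ ≤ (c * sa (7 / 8) h) ^ 2 := pow_le_pow_left₀ (sq_nonneg _) a1 2
      _ = c ^ 2 * sa (7 / 8) h ^ 2 := by ring
      _ ≤ c ^ 2 * (c * sa (5 / 8) h) := mul_le_mul_of_nonneg_left a2 (sq_nonneg c)
      _ = c ^ 3 * sa (5 / 8) h := by ring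
  calc ∑ h ∈ Icc 1 T, sg h ^ 4 ≤ ∑ h ∈ Icc 1 T, c ^ 3 * sa (5 / 8) h := sum_le_sum fun h _ => h3 h
    _ = c ^ 3 * ∑ h ∈ Icc 1 T, sa (5 / 8) h := by rw [mul_sum]
    _ ≤ c ^ 3 * (c2 * T) := mul_le_mul_of_nonneg_left (h2 T) (pow_nonneg hc 3)
    _ ≤ _ := by
        have : (0 : ℝ) ≤ T := Nat.cast_nonneg T
        nlinarith

end Pool.Agent.U84.DD
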